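import Pool.Agent.Helper94.SN.Net

/-!
# Automorphisms of networks
-/

set_option autoImplicit false

namespace Pool.Agent.Helper94.SN

open Equiv Equiv.Perm

variable {n s : ℕ} {S : Type}

namespace Network

variable {C : Network n s S}

theorem IsAut.one : C.IsAut 1 1 where
  input g := by
    cases h : C.input g with
    | none => simp [h]
    | some e =>
      simp only [Perm.one_apply, h, Option.map_some, Option.some.injEq]
      exact (congrFun (Sym2.map_id (α := Fin n)) e).symm
  wires g := by simp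
  init g := rfl
  rule g := rfl
  out := rfl

theorem IsAut.mul {π σ : Perm (Fin n)} {α β : Perm (Fin s)} (h1 : C.IsAut π α)
    (h2 : C.IsAut σ β) : C.IsAut (π * σ) (α * β) where
  input g := by
    rw [Perm.mul_apply, h1.input, h2.input, Option.map_map]
    congr 1
    rw [Perm.coe_mul, ← Sym2.map_comp]
  wires g := by
    rw [Perm.mul_apply, h1.wires, h2.wires, Multiset.map_map]
    rfl
  init g := by rw [Perm.mul_apply, h1.init, h2.init]
  rule g := by rw [Perm.mul_apply, h1.rule, h2.rule]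
  out := by rw [Perm.mul_apply, h2.out, h1.out]

theorem IsAut.inv {π : Perm (Fin n)} {α : Perm (Fin s)} (h : C.IsAut π α) :
    C.IsAut π⁻¹ α⁻¹ where
  input g := by
    obtain ⟨g', rfl⟩ := α.surjective g
    rw [show α⁻¹ (α g') = g' from α.symm_apply_apply g', h.input, Option.map_map]
    have h1 : Sym2.map (⇑π⁻¹) ∘ Sym2.map (⇑π) = id := by
      rw [← Sym2.map_comp]
      have : (⇑π⁻¹) ∘ (⇑π) = id := by
        funext x; exact π.symm_apply_apply x
      rw [this, Sym2.map_id]
    rw [h1, Option.map_id]; rfl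
  wires g := by
    obtain ⟨g', rfl⟩ := α.surjective g
    rw [show α⁻¹ (α g') = g' from α.symm_apply_apply g', h.wires, Multiset.map_map]
    have h1 : ((fun p : ℕ × Fin s => (p.1, α⁻¹ p.2)) ∘ fun p : ℕ × Fin s => (p.1, α p.2)) =
        id := by
      funext p
      exact Prod.ext rfl (α.symm_apply_apply p.2)
    rw [h1, Multiset.map_id]
  init g := by
    obtain ⟨g', rfl⟩ := α.surjective g
    rw [show α⁻¹ (α g') = g' from α.symm_apply_apply g', h.init]
  rule g := by
    obtain ⟨g', rfl⟩ := α.surjective g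
    rw [show α⁻¹ (α g') = g' from α.symm_apply_apply g', h.rule]
  out := by
    have h1 := h.out
    rw [Perm.inv_eq_iff_eq]
    exact h1.symm

/-- the states on a permuted input are the permuted states -/
theorem IsAut.state {π : Perm (Fin n)} {α : Perm (Fin s)} (h : C.IsAut π α)
    {y y' : Sym2 (Fin n) → Bool} (hy : ∀ e, y' (Sym2.map π e) = y e) (t : ℕ) :
    ∀ g, C.state y' t (α g) = C.state y t g := by
  induction t with
  | zero => exact h.init
  | succ t ih =>
    intro g
    change C.rule (α g) ((C.input (α g)).map y')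
      ((C.wires (α g)).map fun p => (p.1, C.state y' t p.2)) =
      C.rule g ((C.input g).map y) ((C.wires g).map fun p => (p.1, C.state y t p.2))
    rw [h.rule, h.input, h.wires, Option.map_map, Multiset.map_map]
    congr 1
    · congr 1
      funext e
      exact hy e
    · congr 1
      funext p
      exact Prod.ext rfl (ih p.2)

/-- the permutations in `Γ` that extend to automorphisms fixing the cell `g` -/
def stab (C : Network n s S) (Γ : Subgroup (Perm (Fin n))) (g : Fin s) :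
    Subgroup (Perm (Fin n)) where
  carrier := {π | π ∈ Γ ∧ ∃ α, C.IsAut π α ∧ α g = g}
  mul_mem' := by
    rintro π σ ⟨h1, α, h2, h3⟩ ⟨h4, β, h5, h6⟩
    exact ⟨Γ.mul_mem h1 h4, α * β, h2.mul h5, by rw [Perm.mul_apply, h6, h3]⟩
  one_mem' := ⟨Γ.one_mem, 1, IsAut.one, rfl⟩
  inv_mem' := by
    rintro π ⟨h1, α, h2, h3⟩
    refine ⟨Γ.inv_mem h1, α⁻¹, h2.inv, ?_⟩
    rw [Perm.inv_eq_iff_eq]
    exact h3.symm

theorem mem_stab {Γ : Subgroup (Perm (Fin n))} {g : Fin s} {π : Perm (Fin n)} :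
    π ∈ C.stab Γ g ↔ π ∈ Γ ∧ ∃ α, C.IsAut π α ∧ α g = g := Iff.rfl

theorem stab_conj {Γ : Subgroup (Perm (Fin n))} {φ : Perm (Fin n)} {α : Perm (Fin s)}
    (hφ : φ ∈ Γ) (h : C.IsAut φ α) (g : Fin s) (π : Perm (Fin n)) :
    π ∈ C.stab Γ g ↔ φ * π * φ⁻¹ ∈ C.stab Γ (α g) := by
  constructor
  · rintro ⟨h1, β, h2, h3⟩
    refine ⟨Γ.mul_mem (Γ.mul_mem hφ h1) (Γ.inv_mem hφ), α * β * α⁻¹, (h.mul h2).mul h.inv, ?_⟩
    rw [Perm.mul_apply, Perm.mul_apply, show α⁻¹ (α g) = g from α.symm_apply_apply g, h3]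
  · rintro ⟨h1, β, h2, h3⟩
    have e1 : π = φ⁻¹ * (φ * π * φ⁻¹) * φ := by group
    have h4 := (h.inv.mul h2).mul h
    rw [← e1] at h4
    refine ⟨?_, α⁻¹ * β * α, h4, ?_⟩
    · rw [e1]
      exact Γ.mul_mem (Γ.mul_mem (Γ.inv_mem hφ) h1) hφ
    · rw [Perm.mul_apply, Perm.mul_apply, h3]
      exact α.symm_apply_apply g

theorem stab_out {Γ : Subgroup (Perm (Fin n))} (hC : C.IsSymmetric Γ) : C.stab Γ C.out = Γ := by
  ext π
  constructor
  · intro h; exact h.1
  · intro h
    obtain ⟨α, hα⟩ := hC π h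
    exact ⟨h, α, hα, hα.out⟩

theorem stab_index_le {Γ : Subgroup (Perm (Fin n))} (hC : C.IsSymmetric Γ) (g : Fin s) :
    (C.stab Γ g).index ≤ Γ.index * s := by
  classical
  have hle : C.stab Γ g ≤ Γ := fun π h => h.1
  rw [← Subgroup.relIndex_mul_index hle, mul_comm]
  apply Nat.mul_le_mul_left
  choose α hα using hC
  have hinj : Function.Injective
      (fun q : Γ ⧸ (C.stab Γ g).subgroupOf Γ => α (q.out : Γ).1 (q.out : Γ).2 g) := by
    intro q r hqr
    have hqr' : α (q.out : Γ).1 (q.out : Γ).2 g = α (r.out : Γ).1 (r.out : Γ).2 g := hqr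
    rw [← q.out_eq', ← r.out_eq']
    rw [QuotientGroup.eq, Subgroup.mem_subgroupOf]
    refine ⟨(q.out⁻¹ * r.out : Γ).2, _, ((hα _ (q.out : Γ).2).inv).mul (hα _ (r.out : Γ).2), ?_⟩
    rw [Perm.mul_apply, ← hqr']
    exact Equiv.symm_apply_apply _ g
  have h1 := Nat.card_le_card_of_injective _ hinj
  rw [Nat.card_eq_fintype_card (α := Fin s), Fintype.card_fin] at h1
  exact h1

end Network

end Pool.Agent.Helper94.SN
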