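import Pool.Agent.Helper94.SN.Net

/-!
# The 2-CNF of a system of equations over the field with two elements
-/

set_option autoImplicit false

namespace Pool.Agent.Helper94.SN

/-- the left hand side of equation `q` of the system `T` at the point `z` -/
def lhs {M N : ℕ} (T : Fin M → Fin 5 → Fin N) (z : Fin N → ZMod 2) (q : Fin M) : ZMod 2 :=
  ∑ i, z (T q i)

/-- vertices: an equation, values of its five variables, and one of `32` copies -/
abbrev Vert (M : ℕ) : Type := Fin M × (Fin 5 → ZMod 2) × (Fin 16 × Bool)

/-- the assignments of two vertices contradict each other -/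
def Conf {M N : ℕ} (T : Fin M → Fin 5 → Fin N) (u v : Vert M) : Prop :=
  ∃ i j, T u.1 i = T v.1 j ∧ u.2.1 i ≠ v.2.1 j

instance {M N : ℕ} (T : Fin M → Fin 5 → Fin N) (u v : Vert M) : Decidable (Conf T u v) := by
  unfold Conf; infer_instance

/-- the 2-CNF of the system `T z = b`: clauses for contradicting vertices, and unit clauses for
vertices that violate their equation -/
def inst {M N n : ℕ} (T : Fin M → Fin 5 → Fin N) (ι : Vert M ↪ Fin n) (b : Fin M → ZMod 2)
    (e : Sym2 (Fin n)) : Bool :=
  decide (∃ u v : Vert M, e = s(ι u, ι v) ∧ (Conf T u v ∨ (u = v ∧ ∑ i, u.2.1 i ≠ b u.1)))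

end Pool.Agent.Helper94.SN
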