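import Pool.Agent.Helper94.SN.Uniq
import Pool.Agent.Helper94.SN.Inst

/-!
# Closures in expanding systems of equations
-/

set_option autoImplicit false

namespace Pool.Agent.Helper94.SN

variable {M N : ℕ}

/-- the variables of the equations in `C` -/
def cvars (T : Fin M → Fin 5 → Fin N) (C : Finset (Fin M)) : Finset (Fin N) :=
  (C ×ˢ (Finset.univ : Finset (Fin 5))).image fun p => T p.1 p.2

theorem mem_cvars {T : Fin M → Fin 5 → Fin N} {C : Finset (Fin M)} {v : Fin N} :
    v ∈ cvars T C ↔ ∃ q ∈ C, ∃ i, T q i = v := by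
  unfold cvars
  rw [Finset.mem_image]
  constructor
  · rintro ⟨p, hp, h⟩
    exact ⟨p.1, (Finset.mem_product.1 hp).1, p.2, h⟩
  · rintro ⟨q, hq, i, h⟩
    exact ⟨(q, i), Finset.mem_product.2 ⟨hq, Finset.mem_univ _⟩, h⟩

theorem mem_uniq {T : Fin M → Fin 5 → Fin N} {R : Finset (Fin M)} {v : Fin N} :
    v ∈ uniq T R ↔ ∃ q ∈ R, ∃ i, T q i = v ∧ ∀ q' ∈ R, ∀ i', T q' i' = v → q' = q ∧ i' = i := by
  unfold uniq
  rw [Finset.mem_filter, Finset.card_eq_one]
  constructor
  · rintro ⟨-, ⟨q, i⟩, h⟩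
    have h1 : (q, i) ∈ ((R ×ˢ (Finset.univ : Finset (Fin 5))).filter fun p => T p.1 p.2 = v) := by
      rw [h]; exact Finset.mem_singleton_self _
    rw [Finset.mem_filter, Finset.mem_product] at h1
    refine ⟨q, h1.1.1, i, h1.2, ?_⟩
    intro q' hq' i' h'
    have h2 : (q', i') ∈ ((R ×ˢ (Finset.univ : Finset (Fin 5))).filter
        fun p => T p.1 p.2 = v) := by
      rw [Finset.mem_filter, Finset.mem_product]
      exact ⟨⟨hq', Finset.mem_univ _⟩, h'⟩
    rw [h, Finset.mem_singleton, Prod.mk.injEq] at h2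
    exact h2
  · rintro ⟨q, hq, i, h, hu⟩
    refine ⟨Finset.mem_univ _, (q, i), ?_⟩
    ext ⟨q', i'⟩
    rw [Finset.mem_filter, Finset.mem_product, Finset.mem_singleton, Prod.mk.injEq]
    constructor
    · rintro ⟨⟨hq', -⟩, h'⟩
      exact hu q' hq' i' h'
    · rintro ⟨h1, h2⟩
      rw [h1, h2]
      exact ⟨⟨hq, Finset.mem_univ _⟩, h⟩

theorem card_uniq_le (T : Fin M → Fin 5 → Fin N) (R : Finset (Fin M)) :
    (uniq T R).card ≤ 5 * R.card := by
  have h1 : uniq T R ⊆ cvars T R := by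
    intro v hv
    obtain ⟨q, hq, i, h, -⟩ := mem_uniq.1 hv
    exact mem_cvars.2 ⟨q, hq, i, h⟩
  refine (Finset.card_le_card h1).trans ?_
  unfold cvars
  refine Finset.card_image_le.trans ?_
  rw [Finset.card_product, Finset.card_univ, Fintype.card_fin, mul_comm]

/-- `C` is closed with respect to sets of at most `s` equations -/
def Closed (T : Fin M → Fin 5 → Fin N) (s : ℕ) (C : Finset (Fin M)) : Prop :=
  ∀ R : Finset (Fin M), R.Nonempty → Disjoint R C → R.card ≤ s → ∃ v ∈ uniq T R, v ∉ cvars T C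

theorem exists_closed {T : Fin M → Fin 5 → Fin N} {f : ℕ}
    (hT : ∀ R : Finset (Fin M), R.card ≤ 10 * f → R.card ≤ (uniq T R).card)
    {F : Finset (Fin M)} (hF : F.card ≤ f) :
    ∃ C : Finset (Fin M), F ⊆ C ∧ C.card ≤ 5 * f ∧ Closed T (5 * f) C := by
  classical
  set S : Finset (Finset (Fin M)) := Finset.univ.filter
    (fun C => F ⊆ C ∧ C.card ≤ 10 * f ∧ uniq T C ⊆ uniq T F) with hS
  have hne : S.Nonempty :=
    ⟨F, by rw [hS, Finset.mem_filter]; exact ⟨Finset.mem_univ _, subset_rfl, by omega, subset_rfl⟩⟩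
  obtain ⟨C, hC, hmax⟩ := Finset.exists_max_image S Finset.card hne
  rw [hS, Finset.mem_filter] at hC
  obtain ⟨-, hFC, hC10, hCu⟩ := hC
  have hC5 : C.card ≤ 5 * f := by
    have h1 := hT C hC10
    have h2 := Finset.card_le_card hCu
    have h3 := card_uniq_le T F
    omega
  refine ⟨C, hFC, hC5, ?_⟩
  intro R hR hd hR5
  by_contra hcon
  push Not at hcon
  have h1 : C ∪ R ∈ S := by
    rw [hS, Finset.mem_filter]
    refine ⟨Finset.mem_univ _, hFC.trans Finset.subset_union_left, ?_, ?_⟩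
    · have := Finset.card_union_le C R
      omega
    · refine subset_trans ?_ hCu
      intro v hv
      obtain ⟨q, hq, i, h, hu⟩ := mem_uniq.1 hv
      rw [Finset.mem_union] at hq
      rcases hq with hq | hq
      · exact mem_uniq.2 ⟨q, hq, i, h, fun q' hq' => hu q' (Finset.mem_union_left _ hq')⟩
      · exfalso
        have h2 : v ∈ uniq T R :=
          mem_uniq.2 ⟨q, hq, i, h, fun q' hq' => hu q' (Finset.mem_union_right _ hq')⟩
        obtain ⟨q', hq', i', h'⟩ := mem_cvars.1 (hcon v h2)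
        have h3 := hu q' (Finset.mem_union_left _ hq') i' h'
        rw [h3.1] at hq'
        exact Finset.disjoint_left.1 hd hq hq'
  have h2 := hmax _ h1
  have h3 : (C ∪ R).card = C.card + R.card := Finset.card_union_of_disjoint hd.symm
  have h4 := hR.card_pos
  omega

theorem Closed.solve {T : Fin M → Fin 5 → Fin N} {s : ℕ} {C : Finset (Fin M)}
    (hC : Closed T s C) (b : Fin M → ZMod 2) :
    ∀ (m : ℕ) (R : Finset (Fin M)), R.card = m → Disjoint R C → m ≤ s →
      ∃ z : Fin N → ZMod 2, (∀ v ∈ cvars T C, z v = 0) ∧ ∀ q ∈ R, lhs T z q = b q := by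
  intro m
  induction m with
  | zero =>
    intro R hR _ _
    refine ⟨0, fun _ _ => rfl, ?_⟩
    intro q hq
    rw [Finset.card_eq_zero] at hR
    rw [hR] at hq
    exact absurd hq (Finset.notMem_empty _)
  | succ m ih =>
    intro R hR hd hm
    have hne : R.Nonempty := by
      rw [← Finset.card_pos]; omega
    obtain ⟨v, hv, hvC⟩ := hC R hne hd (by omega)
    obtain ⟨q, hq, i, h, hu⟩ := mem_uniq.1 hv
    obtain ⟨z, hz, hzR⟩ := ih (R.erase q) (by rw [Finset.card_erase_of_mem hq]; omega)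
      (Finset.disjoint_of_subset_left (Finset.erase_subset _ _) hd) (by omega)
    refine ⟨fun w => z w + if w = v then b q - lhs T z q else 0, ?_, ?_⟩
    · intro w hw
      have hwv : w ≠ v := fun h => hvC (by rw [← h]; exact hw)
      beta_reduce
      rw [if_neg hwv, hz w hw, add_zero]
    · intro q' hq'
      by_cases hqq : q' = q
      · rw [hqq]
        unfold lhs
        rw [Finset.sum_add_distrib]
        have h1 : (∑ i', if T q i' = v then b q - ∑ j, z (T q j) else 0) =
            b q - ∑ j, z (T q j) := by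
          rw [Finset.sum_eq_single i]
          · rw [if_pos h]
          · intro i' _ hi'
            rw [if_neg]
            intro h2
            exact hi' (hu q hq i' h2).2
          · intro h2
            exact absurd (Finset.mem_univ _) h2
        unfold lhs at h1
        rw [h1]
        ring
      · have h1 := hzR q' (Finset.mem_erase.2 ⟨hqq, hq'⟩)
        rw [← h1]
        unfold lhs
        refine Finset.sum_congr rfl fun i' _ => ?_
        beta_reduce
        rw [if_neg, add_zero]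
        intro h2
        exact hqq (hu q' hq' i' h2).1

theorem exists_closure {T : Fin M → Fin 5 → Fin N} {f : ℕ}
    (hT : ∀ R : Finset (Fin M), R.card ≤ 10 * f → R.card ≤ (uniq T R).card) :
    ∃ cl : Finset (Fin M) → Finset (Fin M), ∀ F : Finset (Fin M), F.card ≤ f →
      F ⊆ cl F ∧ (cl F).card ≤ 5 * f ∧ ∀ (b : Fin M → ZMod 2) (R : Finset (Fin M)),
        R.card ≤ 5 * f → (∀ q ∈ cl F, b q = 0) →
        ∃ z : Fin N → ZMod 2, (∀ q ∈ cl F, ∀ i, z (T q i) = 0) ∧ ∀ q ∈ R, lhs T z q = b q := by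
  classical
  have h1 : ∀ F : Finset (Fin M), ∃ C : Finset (Fin M), F.card ≤ f →
      F ⊆ C ∧ C.card ≤ 5 * f ∧ Closed T (5 * f) C := by
    intro F
    by_cases hF : F.card ≤ f
    · obtain ⟨C, hC⟩ := exists_closed hT hF
      exact ⟨C, fun _ => hC⟩
    · exact ⟨∅, fun h => absurd h hF⟩
  choose cl hcl using h1
  refine ⟨cl, fun F hF => ⟨(hcl F hF).1, (hcl F hF).2.1, ?_⟩⟩
  intro b R hR hb
  obtain ⟨z, hz, hzR⟩ := (hcl F hF).2.2.solve b _ (R \ cl F) rfl Finset.sdiff_disjoint
    ((Finset.card_le_card Finset.sdiff_subset).trans hR)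
  refine ⟨z, fun q hq i => hz _ (mem_cvars.2 ⟨q, hq, i, rfl⟩), ?_⟩
  intro q hq
  by_cases hqC : q ∈ cl F
  · rw [hb q hqC]
    unfold lhs
    exact Finset.sum_eq_zero fun i _ => hz _ (mem_cvars.2 ⟨q, hqC, i, rfl⟩)
  · exact hzR q (Finset.mem_sdiff.2 ⟨hq, hqC⟩)

end Pool.Agent.Helper94.SN
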