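import Pool.Agent.Helper94.SN.Inst

/-!
# Shifts of the variables act as even permutations
-/

set_option autoImplicit false

namespace Pool.Agent.Helper94.SN

open Equiv Equiv.Perm

variable {M N n : ℕ}

theorem add_add_cancel_two (a b : Fin 5 → ZMod 2) : a + b + b = a := by
  ext i
  rw [Pi.add_apply, Pi.add_apply, add_assoc, CharTwo.add_self_eq_zero, add_zero]

/-- add the values of `z` to the values of the variables -/
def shift (T : Fin M → Fin 5 → Fin N) (z : Fin N → ZMod 2) : Perm (Vert M) where
  toFun u := (u.1, u.2.1 + (fun i => z (T u.1 i)), u.2.2)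
  invFun u := (u.1, u.2.1 + (fun i => z (T u.1 i)), u.2.2)
  left_inv u := by
    simp only [add_add_cancel_two]
  right_inv u := by
    simp only [add_add_cancel_two]

/-- a square root of the shift -/
def root (T : Fin M → Fin 5 → Fin N) (z : Fin N → ZMod 2) : Perm (Vert M) where
  toFun u := (u.1, (if u.2.2.2 then u.2.1 + (fun i => z (T u.1 i)) else u.2.1),
    (u.2.2.1, !u.2.2.2))
  invFun u := (u.1, (if u.2.2.2 then u.2.1 else u.2.1 + (fun i => z (T u.1 i))),
    (u.2.2.1, !u.2.2.2))
  left_inv u := by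
    rcases u with ⟨q, s, c, b⟩
    cases b <;> simp [add_add_cancel_two]
  right_inv u := by
    rcases u with ⟨q, s, c, b⟩
    cases b <;> simp [add_add_cancel_two]

theorem root_mul_root (T : Fin M → Fin 5 → Fin N) (z : Fin N → ZMod 2) :
    root T z * root T z = shift T z := by
  ext1 u
  rcases u with ⟨q, s, c, b⟩
  rw [Perm.mul_apply]
  cases b <;> simp [root, shift]

/-- the shift as a permutation of the variables of the 2-CNF -/
noncomputable def act (T : Fin M → Fin 5 → Fin N) (ι : Vert M ↪ Fin n) (z : Fin N → ZMod 2) :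
    Perm (Fin n) := (shift T z).viaEmbedding ι

theorem act_apply (T : Fin M → Fin 5 → Fin N) (ι : Vert M ↪ Fin n) (z : Fin N → ZMod 2)
    (u : Vert M) : act T ι z (ι u) = ι (shift T z u) :=
  viaEmbedding_apply _ _ _

theorem act_of_notMem (T : Fin M → Fin 5 → Fin N) (ι : Vert M ↪ Fin n) (z : Fin N → ZMod 2)
    {x : Fin n} (hx : x ∉ Set.range ι) : act T ι z x = x :=
  viaEmbedding_apply_of_notMem _ _ _ hx

theorem sign_act (T : Fin M → Fin 5 → Fin N) (ι : Vert M ↪ Fin n) (z : Fin N → ZMod 2) :
    sign (act T ι z) = 1 := by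
  have h1 : act T ι z = viaEmbeddingHom ι (root T z) * viaEmbeddingHom ι (root T z) := by
    rw [← map_mul, root_mul_root]; rfl
  rw [h1, map_mul, Int.units_mul_self]

theorem conf_shift (T : Fin M → Fin 5 → Fin N) (z : Fin N → ZMod 2) (u v : Vert M) :
    Conf T (shift T z u) (shift T z v) ↔ Conf T u v := by
  unfold Conf
  constructor
  · rintro ⟨i, j, h1, h2⟩
    refine ⟨i, j, h1, ?_⟩
    intro h3
    apply h2
    change u.2.1 i + z (T u.1 i) = v.2.1 j + z (T v.1 j)
    have h1' : T u.1 i = T v.1 j := h1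
    rw [h1', h3]
  · rintro ⟨i, j, h1, h2⟩
    refine ⟨i, j, h1, ?_⟩
    intro h3
    apply h2
    have h3' : u.2.1 i + z (T u.1 i) = v.2.1 j + z (T v.1 j) := h3
    rw [h1] at h3'
    exact add_right_cancel h3'

theorem sum_shift (T : Fin M → Fin 5 → Fin N) (z : Fin N → ZMod 2) (u : Vert M) :
    ∑ i, (shift T z u).2.1 i = ∑ i, u.2.1 i + lhs T z u.1 := by
  unfold lhs
  rw [← Finset.sum_add_distrib]
  rfl

theorem inst_act (T : Fin M → Fin 5 → Fin N) (ι : Vert M ↪ Fin n) (z : Fin N → ZMod 2)
    (b : Fin M → ZMod 2) (e : Sym2 (Fin n)) :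
    inst T ι (b + lhs T z) (Sym2.map (act T ι z) e) = inst T ι b e := by
  unfold inst
  rw [decide_eq_decide]
  constructor
  · rintro ⟨u', v', he, h⟩
    obtain ⟨u, rfl⟩ := (shift T z).surjective u'
    obtain ⟨v, rfl⟩ := (shift T z).surjective v'
    refine ⟨u, v, ?_, ?_⟩
    · rw [← act_apply, ← act_apply] at he
      have h1 : Sym2.map (act T ι z) e = Sym2.map (act T ι z) s(ι u, ι v) := he
      exact Sym2.map.injective (act T ι z).injective h1
    · rcases h with h | ⟨h1, h2⟩
      · exact Or.inl ((conf_shift T z u v).1 h)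
      · refine Or.inr ⟨(shift T z).injective h1, ?_⟩
        intro h3
        apply h2
        rw [sum_shift, h3]
        rfl
  · rintro ⟨u, v, he, h⟩
    refine ⟨shift T z u, shift T z v, ?_, ?_⟩
    · rw [he, ← act_apply, ← act_apply]; rfl
    · rcases h with h | ⟨h1, h2⟩
      · exact Or.inl ((conf_shift T z u v).2 h)
      · refine Or.inr ⟨by rw [h1], ?_⟩
        intro h3
        apply h2
        rw [sum_shift] at h3
        exact add_right_cancel h3

/-- the number of models does not change if the variables are permuted -/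
theorem models_perm {y y' : Sym2 (Fin n) → Bool} (π : Perm (Fin n))
    (h : ∀ e, y' (Sym2.map π e) = y e) : models n y' = models n y := by
  unfold models
  apply Fintype.card_congr
  refine ⟨fun x => ⟨fun i => x.1 (π i), ?_⟩, fun x => ⟨fun i => x.1 (π⁻¹ i), ?_⟩, ?_, ?_⟩
  · intro i j hij
    apply x.2
    have h1 := h s(i, j)
    rw [Sym2.map_mk] at h1
    rw [← hij, ← h1]
  · intro i j hij
    apply x.2
    have h1 := h s(π⁻¹ i, π⁻¹ j)
    rw [Sym2.map_mk] at h1
    rw [← h1, ← hij]
    simp
  · intro x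
    apply Subtype.ext
    funext i
    simp
  · intro x
    apply Subtype.ext
    funext i
    simp

end Pool.Agent.Helper94.SN
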