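import Pool.Agent.Helper94.SN.Small
import Pool.Agent.Helper94.SN.Closure
import Pool.Agent.Helper94.SN.Shift
import Pool.Agent.Helper94.SN.Aut

/-!
# Symmetric networks cannot tell apart locally consistent systems
-/

set_option autoImplicit false

namespace Pool.Agent.Helper94.SN

open Equiv Equiv.Perm

variable {M N n s : ℕ} {S : Type}

open Classical in
/-- the equations that have a vertex in `X` -/
noncomputable def foot (ι : Vert M ↪ Fin n) (X : Finset (Fin n)) : Finset (Fin M) :=
  Finset.univ.filter fun q => ∃ a c, ι (q, a, c) ∈ X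

theorem mem_foot {ι : Vert M ↪ Fin n} {X : Finset (Fin n)} {q : Fin M} :
    q ∈ foot ι X ↔ ∃ a c, ι (q, a, c) ∈ X := by
  unfold foot
  rw [Finset.mem_filter]
  exact ⟨fun h => h.2, fun h => ⟨Finset.mem_univ _, h⟩⟩

theorem card_foot_le (ι : Vert M ↪ Fin n) (X : Finset (Fin n)) : (foot ι X).card ≤ X.card := by
  classical
  have h1 : ∀ q ∈ foot ι X, ∃ u : Vert M, u.1 = q ∧ ι u ∈ X := by
    intro q hq
    obtain ⟨a, c, h⟩ := mem_foot.1 hq
    exact ⟨(q, a, c), rfl, h⟩
  choose! u hu using h1
  apply Finset.card_le_card_of_injOn (fun q => ι (u q))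
  · intro q hq
    exact (hu q hq).2
  · intro q hq q' hq' h
    rw [← (hu q hq).1, ← (hu q' hq').1, ι.injective h]

/-- the shift moves no point of a set whose equations it does not change -/
theorem act_fix {T : Fin M → Fin 5 → Fin N} {ι : Vert M ↪ Fin n} {X : Finset (Fin n)}
    {z : Fin N → ZMod 2} (hz : ∀ q ∈ foot ι X, ∀ i, z (T q i) = 0) :
    ∀ x ∈ X, act T ι z x = x := by
  intro x hx
  by_cases h : x ∈ Set.range ι
  · obtain ⟨u, rfl⟩ := h
    have hq : u.1 ∈ foot ι X := mem_foot.2 ⟨u.2.1, u.2.2, hx⟩
    rw [act_apply]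
    congr 1
    have h1 : (fun i => z (T u.1 i)) = 0 := by
      funext i; exact hz u.1 hq i
    change (u.1, u.2.1 + (fun i => z (T u.1 i)), u.2.2) = u
    rw [h1, add_zero]
  · exact act_of_notMem T ι z h

theorem foot_act {T : Fin M → Fin 5 → Fin N} {ι : Vert M ↪ Fin n} {X X' : Finset (Fin n)}
    {z : Fin N → ZMod 2} (h : ∀ x, act T ι z x ∈ X' ↔ x ∈ X) : foot ι X' = foot ι X := by
  ext q
  rw [mem_foot, mem_foot]
  constructor
  · rintro ⟨a, c, hm⟩
    refine ⟨a + (fun i => z (T q i)), c, ?_⟩
    rw [← h, act_apply]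
    change ι (q, a + (fun i => z (T q i)) + (fun i => z (T q i)), c) ∈ X'
    rw [add_add_cancel_two]
    exact hm
  · rintro ⟨a, c, hm⟩
    refine ⟨a + (fun i => z (T q i)), c, ?_⟩
    rw [← h, act_apply] at hm
    exact hm

/-- the input bits of a cell depend only on the right hand sides at its equations -/
theorem inst_congr {T : Fin M → Fin 5 → Fin N} {ι : Vert M ↪ Fin n} {e : Sym2 (Fin n)}
    {b b' : Fin M → ZMod 2} (h : ∀ u : Vert M, e = s(ι u, ι u) → b u.1 = b' u.1) :
    inst T ι b e = inst T ι b' e := by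
  unfold inst
  rw [decide_eq_decide]
  constructor
  · rintro ⟨u, v, he, hc | ⟨huv, hc⟩⟩
    · exact ⟨u, v, he, Or.inl hc⟩
    · refine ⟨u, v, he, Or.inr ⟨huv, ?_⟩⟩
      rw [← huv] at he
      rw [← h u he]; exact hc
  · rintro ⟨u, v, he, hc | ⟨huv, hc⟩⟩
    · exact ⟨u, v, he, Or.inl hc⟩
    · refine ⟨u, v, he, Or.inr ⟨huv, ?_⟩⟩
      rw [← huv] at he
      rw [h u he]; exact hc

theorem state_eq {C : Network n s S} {Γ : Subgroup (Perm (Fin n))} (hC : C.IsSymmetric Γ)
    {k : ℕ} (hk : Γ.index * s < 2 ^ k) (hkn : 12 * k < n) {T : Fin M → Fin 5 → Fin N}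
    {cl : Finset (Fin M) → Finset (Fin M)}
    (hcl : ∀ F : Finset (Fin M), F.card ≤ 6 * k →
      F ⊆ cl F ∧ (cl F).card ≤ 5 * (6 * k) ∧ ∀ (b : Fin M → ZMod 2) (R : Finset (Fin M)),
        R.card ≤ 5 * (6 * k) → (∀ q ∈ cl F, b q = 0) →
        ∃ z : Fin N → ZMod 2, (∀ q ∈ cl F, ∀ i, z (T q i) = 0) ∧ ∀ q ∈ R, lhs T z q = b q)
    (ι : Vert M ↪ Fin n) (t : ℕ) :
    ∀ (g : Fin s) (b b' : Fin M → ZMod 2),
      (∀ q ∈ cl (foot ι (small (C.stab Γ g))), b q = b' q) →
      C.state (inst T ι b) t g = C.state (inst T ι b') t g := by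
  classical
  have hidx : ∀ g, (C.stab Γ g).index < 2 ^ k := fun g =>
    lt_of_le_of_lt (Network.stab_index_le hC g) hk
  have hsm : ∀ g, (small (C.stab Γ g)).card ≤ 6 * k := fun g =>
    small_card (hidx g) (by rw [Fintype.card_fin]; exact hkn)
  set fp : Fin s → Finset (Fin M) := fun g => foot ι (small (C.stab Γ g)) with hfp
  have hfc : ∀ g, (fp g).card ≤ 6 * k := fun g => (card_foot_le ι _).trans (hsm g)
  induction t with
  | zero => intro g b b' _; rfl
  | succ t ih =>
    intro g b b' hb
    change C.rule g ((C.input g).map (inst T ι b))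
      ((C.wires g).map fun p => (p.1, C.state (inst T ι b) t p.2)) =
      C.rule g ((C.input g).map (inst T ι b'))
      ((C.wires g).map fun p => (p.1, C.state (inst T ι b') t p.2))
    -- the input bit
    have h1 : (C.input g).map (inst T ι b) = (C.input g).map (inst T ι b') := by
      cases he : C.input g with
      | none => rfl
      | some e =>
        rw [Option.map_some, Option.map_some, Option.some.injEq]
        apply inst_congr
        intro u hu
        apply hb
        apply (hcl _ (hfc g)).1
        refine mem_foot.2 ⟨u.2.1, u.2.2, ?_⟩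
        apply mem_small_of_fixed
        · rw [Fintype.card_fin]
          rcases Nat.eq_zero_or_pos k with h0 | h0
          · exfalso
            rw [h0, pow_zero, Nat.lt_one_iff, Nat.mul_eq_zero] at hk
            rcases hk with hk | hk
            · exact Subgroup.index_ne_zero_of_finite hk
            · rw [hk] at g; exact g.elim0
          · omega
        · rintro π ⟨-, α, hα, hαg⟩
          have h2 := hα.input g
          rw [hαg, he, Option.map_some, Option.some.injEq, hu, Sym2.map_mk, Sym2.eq_iff] at h2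
          rcases h2 with h2 | h2
          · exact h2.1.symm
          · exact h2.1.symm
    -- the automorphisms
    have h2 : ∀ F : Finset (Fin M), F.card ≤ 6 * k →
        ∃ (z : Fin N → ZMod 2) (α : Perm (Fin s)),
        (∀ q ∈ cl F, lhs T z q = b q + b' q) ∧ act T ι z ∈ C.stab Γ g ∧
          C.IsAut (act T ι z) α ∧ α g = g := by
      intro F hF
      obtain ⟨z, hz1, hz2⟩ := (hcl _ (hfc g)).2.2 (fun q => b q + b' q) (cl F)
        (hcl _ hF).2.1 (by
          intro q hq
          have := hb q hq
          change b q + b' q = 0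
          rw [this, CharTwo.add_self_eq_zero])
      have h3 : act T ι z ∈ C.stab Γ g := by
        apply even_mem (sign_act T ι z)
        apply act_fix
        intro q hq i
        exact hz1 q ((hcl _ (hfc g)).1 hq) i
      have h4 := h3
      obtain ⟨-, α, hα, hαg⟩ := h4
      exact ⟨z, α, hz2, h3, hα, hαg⟩
    choose! z α hz hmem hα hαg using h2
    have hfoot : ∀ (F : Finset (Fin M)), F.card ≤ 6 * k → ∀ h, fp (α F h) = fp h := by
      intro F hF h
      apply foot_act (T := T) (z := z F)
      intro x
      exact small_conj (Network.stab_conj (hmem F hF).1 (hα F hF) h) x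
    set β : Fin s → Fin s := fun h => α (fp h) h with hβ
    have hβinj : Function.Injective β := by
      intro h h' hh
      have e1 : fp (β h) = fp h := hfoot _ (hfc h) h
      have e2 : fp (β h') = fp h' := hfoot _ (hfc h') h'
      have e3 : fp h = fp h' := by rw [← e1, ← e2, hh]
      have hh' : α (fp h) h = α (fp h') h' := hh
      rw [e3] at hh'
      exact (α (fp h')).injective hh'
    have hβsurj : Function.Surjective β := Finite.surjective_of_injective hβinj
    have hstate : ∀ h, C.state (inst T ι b) t h = C.state (inst T ι b') t (β h) := by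
      intro h
      have e1 := (hα _ (hfc h)).state (inst_act T ι (z (fp h)) b) t h
      rw [← e1]
      apply ih
      intro q hq
      have e2 : foot ι (small (C.stab Γ (β h))) = fp h := hfoot _ (hfc h) h
      have hq' : q ∈ cl (fp h) := by
        rw [← e2]; exact hq
      have e3 := hz _ (hfc h) q hq'
      change b q + lhs T (z (fp h)) q = b' q
      rw [e3, ← add_assoc, CharTwo.add_self_eq_zero, zero_add]
    have hwires : (C.wires g).map (fun p => (p.1, β p.2)) = C.wires g := by
      have hinj : Function.Injective (fun p : ℕ × Fin s => (p.1, β p.2)) := by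
        rintro ⟨l, h⟩ ⟨l', h'⟩ hh
        rw [Prod.mk.injEq] at hh
        exact Prod.ext hh.1 (hβinj hh.2)
      ext ⟨l, h'⟩
      obtain ⟨h, rfl⟩ := hβsurj h'
      have e1 : Multiset.count (l, β h) ((C.wires g).map (fun p => (p.1, β p.2))) =
          Multiset.count (l, h) (C.wires g) :=
        Multiset.count_map_eq_count' (fun p : ℕ × Fin s => (p.1, β p.2)) _ hinj (l, h)
      have hinj2 : Function.Injective (fun p : ℕ × Fin s => (p.1, α (fp h) p.2)) := by
        rintro ⟨l, h⟩ ⟨l', h'⟩ hh
        rw [Prod.mk.injEq] at hh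
        exact Prod.ext hh.1 ((α (fp _)).injective hh.2)
      have e2 : Multiset.count (l, β h) ((C.wires g).map (fun p => (p.1, α (fp h) p.2))) =
          Multiset.count (l, h) (C.wires g) :=
        Multiset.count_map_eq_count' (fun p : ℕ × Fin s => (p.1, α (fp h) p.2)) _ hinj2 (l, h)
      have e3 := (hα _ (hfc h)).wires g
      rw [hαg _ (hfc h)] at e3
      rw [e1, ← e2, ← e3]
    rw [h1]
    congr 1
    have e4 : (C.wires g).map (fun p => (p.1, C.state (inst T ι b') t p.2)) =
        ((C.wires g).map (fun p => (p.1, β p.2))).map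
          (fun p => (p.1, C.state (inst T ι b') t p.2)) := by rw [hwires]
    rw [e4, Multiset.map_map]
    congr 1
    funext p
    exact Prod.ext rfl (hstate p.2)

end Pool.Agent.Helper94.SN
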