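import Pool.Agent.Helper94.SN.Inst

/-!
# The number of models of the 2-CNF of a system of equations
-/

set_option autoImplicit false

namespace Pool.Agent.Helper94.SN

/-- few assignments are true outside a small set -/
theorem card_le_two_pow_of_forced {n : ℕ} (S : Finset (Fin n → Bool)) (A : Finset (Fin n))
    (h : ∀ x ∈ S, ∀ i, i ∉ A → x i = true) : S.card ≤ 2 ^ A.card := by
  classical
  rw [← Finset.card_powerset]
  refine Finset.card_le_card_of_injOn (fun x => Finset.univ.filter fun i => x i = false) ?_ ?_
  · intro x hx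
    simp only [Finset.mem_coe, Finset.mem_powerset]
    intro i hi
    simp only [Finset.mem_filter, Finset.mem_univ, true_and] at hi
    by_contra hA
    rw [h x (by simpa using hx) i hA] at hi
    exact absurd hi (by decide)
  · intro x _ y _ hxy
    funext i
    have := congrArg (fun B => i ∈ B) hxy
    simp only [Finset.mem_filter, Finset.mem_univ, true_and, eq_iff_iff] at this
    cases hx : x i <;> cases hy : y i <;> simp_all

/-- many assignments are true outside a large set -/
theorem two_pow_le_card_of_free {n : ℕ} (S : Finset (Fin n → Bool)) (A : Finset (Fin n))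
    (h : ∀ x : Fin n → Bool, (∀ i, i ∉ A → x i = true) → x ∈ S) : 2 ^ A.card ≤ S.card := by
  classical
  rw [← Finset.card_powerset]
  refine Finset.card_le_card_of_injOn (fun B i => decide (i ∉ B)) ?_ ?_
  · intro B hB
    have hB' : B ⊆ A := by simpa using hB
    refine h _ fun i hi => ?_
    have : i ∉ B := fun hb => hi (hB' hb)
    simp [this]
  · intro B _ C _ hBC
    ext i
    have := congrFun hBC i
    simp only [decide_eq_decide] at this
    exact not_iff_not.1 this

/-- C1: if the right hand side is `0` there are many models -/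
theorem models_zero {M N n : ℕ} (T : Fin M → Fin 5 → Fin N) (ι : Vert M ↪ Fin n) :
    2 ^ (n - 1024 * M + 32 * M) ≤ models n (inst T ι 0) := by
  classical
  have hcard : Fintype.card (Vert M) = 1024 * M := by
    simp [Vert, Fintype.card_prod, ZMod.card]; ring
  have hle : 1024 * M ≤ n := by
    have := Fintype.card_le_of_embedding ι
    rwa [hcard, Fintype.card_fin] at this
  set F : Finset (Fin n) := (Finset.univ.filter fun u : Vert M => u.2.1 ≠ 0).map ι with hF
  have hFc : F.card = 992 * M := by
    rw [hF, Finset.card_map]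
    have h1 : (Finset.univ.filter fun u : Vert M => u.2.1 ≠ 0)
        = (Finset.univ : Finset (Fin M)) ×ˢ
          ((Finset.univ.filter fun s : Fin 5 → ZMod 2 => s ≠ 0) ×ˢ
            (Finset.univ : Finset (Fin 16 × Bool))) := by
      ext u; simp
    rw [h1, Finset.card_product, Finset.card_product, Finset.card_univ, Finset.card_univ,
      Finset.filter_ne', Finset.card_erase_of_mem (Finset.mem_univ _), Finset.card_univ]
    simp [ZMod.card]; ring
  have hAc : (Fᶜ).card = n - 1024 * M + 32 * M := by
    rw [Finset.card_compl, hFc, Fintype.card_fin]; omega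
  rw [← hAc, models, Fintype.card_subtype]
  refine two_pow_le_card_of_free _ _ fun x hx => ?_
  simp only [Finset.mem_filter, Finset.mem_univ, true_and]
  have hx' : ∀ u : Vert M, u.2.1 ≠ 0 → x (ι u) = true := by
    intro u hu
    refine hx _ ?_
    rw [Finset.mem_compl, not_not, hF, Finset.mem_map]
    exact ⟨u, by simpa using hu, rfl⟩
  intro i j hij
  simp only [inst, decide_eq_true_eq] at hij
  obtain ⟨u, v, he, hc⟩ := hij
  have key : x (ι u) = true ∨ x (ι v) = true := by
    rcases hc with ⟨a, c, -, hne⟩ | ⟨rfl, hs⟩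
    · by_cases hu : u.2.1 = 0
      · right
        refine hx' v fun hv => hne ?_
        rw [hu, hv]; rfl
      · exact Or.inl (hx' u hu)
    · left
      refine hx' u fun hu => hs ?_
      rw [hu]; simp
  rcases Sym2.eq_iff.1 he with ⟨h1, h2⟩ | ⟨h1, h2⟩
  · rw [h1, h2]; exact key
  · rw [h1, h2]; exact key.symm

/-- C2: if every point violates at least `N` of the `5 N` equations there are few models -/
theorem models_far {N n : ℕ} (T : Fin (5 * N) → Fin 5 → Fin N) (ι : Vert (5 * N) ↪ Fin n)
    (b : Fin (5 * N) → ZMod 2)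
    (hb : ∀ z, N ≤ (Finset.univ.filter fun q => lhs T z q ≠ b q).card) :
    models n (inst T ι b) ≤ 2 ^ (n - 1024 * (5 * N) + 30 * N + 128 * N) := by
  classical
  have hcard : Fintype.card (Vert (5 * N)) = 1024 * (5 * N) := by
    simp [Vert, Fintype.card_prod, ZMod.card]; ring
  have hle : 1024 * (5 * N) ≤ n := by
    have := Fintype.card_le_of_embedding ι
    rwa [hcard, Fintype.card_fin] at this
  rw [models, Fintype.card_subtype]
  set S : Finset (Fin n → Bool) := Finset.univ.filter fun x =>
    ∀ i j, inst T ι b s(i, j) = true → (x i = true ∨ x j = true) with hS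
  -- the basic fact on clauses
  have hcl : ∀ x ∈ S, ∀ u v : Vert (5 * N), x (ι u) = false → x (ι v) = false →
      ¬ Conf T u v := by
    intro x hx u v hu hv hc
    rw [hS, Finset.mem_filter] at hx
    have := hx.2 (ι u) (ι v) (by
      simp only [inst, decide_eq_true_eq]
      exact ⟨u, v, rfl, Or.inl hc⟩)
    rw [hu, hv] at this
    simp at this
  have hun : ∀ x ∈ S, ∀ u : Vert (5 * N), x (ι u) = false → ∑ i, u.2.1 i = b u.1 := by
    intro x hx u hu
    by_contra hne
    rw [hS, Finset.mem_filter] at hx
    have := hx.2 (ι u) (ι u) (by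
      simp only [inst, decide_eq_true_eq]
      exact ⟨u, u, rfl, Or.inr ⟨rfl, hne⟩⟩)
    rw [hu] at this
    simp at this
  -- the decoding data
  let J : (Fin n → Bool) → Fin (5 * N) → Prop := fun x q => ∃ (s : Fin 5 → ZMod 2)
    (c : Fin 16 × Bool), x (ι (q, s, c)) = false
  let σ : (Fin n → Bool) → Fin (5 * N) → (Fin 5 → ZMod 2) := fun x q =>
    if h : J x q then h.choose else 0
  let Q : (Fin n → Bool) → Finset (Fin (5 * N)) := fun x => Finset.univ.filter fun q => J x q
  have hσ : ∀ x q, J x q → ∃ c, x (ι (q, σ x q, c)) = false := by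
    intro x q h
    have : σ x q = h.choose := by simp only [σ]; rw [dif_pos h]
    rw [this]
    exact h.choose_spec
  have huniq : ∀ x ∈ S, ∀ q s c, x (ι (q, s, c)) = false → J x q ∧ s = σ x q := by
    intro x hx q s c h
    have hJ : J x q := ⟨s, c, h⟩
    refine ⟨hJ, ?_⟩
    obtain ⟨c', hc'⟩ := hσ x q hJ
    by_contra hne
    obtain ⟨i, hi⟩ := Function.ne_iff.1 hne
    exact hcl x hx _ _ h hc' ⟨i, i, rfl, hi⟩
  -- few equations are used
  have hQ : ∀ x ∈ S, (Q x).card ≤ 4 * N := by
    intro x hx
    let z : Fin N → ZMod 2 := fun t =>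
      if h : ∃ q i, J x q ∧ T q i = t then σ x h.choose h.choose_spec.choose else 0
    have hz : ∀ q i, J x q → z (T q i) = σ x q i := by
      intro q i hq
      have hex : ∃ q' i', J x q' ∧ T q' i' = T q i := ⟨q, i, hq, rfl⟩
      have hz1 : z (T q i) = σ x hex.choose hex.choose_spec.choose := by
        simp only [z]; rw [dif_pos hex]
      rw [hz1]
      have h1 := hex.choose_spec.choose_spec
      obtain ⟨c, hc⟩ := hσ x _ h1.1
      obtain ⟨c', hc'⟩ := hσ x q hq
      by_contra hne
      exact hcl x hx _ _ hc hc' ⟨_, i, h1.2, hne⟩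
    have hlhs : ∀ q ∈ Q x, lhs T z q = b q := by
      intro q hq
      have hJ : J x q := by simpa [Q] using hq
      obtain ⟨c, hc⟩ := hσ x q hJ
      have := hun x hx _ hc
      rw [← this]
      exact Finset.sum_congr rfl fun i _ => hz q i hJ
    have hdisj : Disjoint (Q x) (Finset.univ.filter fun q => lhs T z q ≠ b q) := by
      rw [Finset.disjoint_left]
      intro q hq hq'
      exact (Finset.mem_filter.1 hq').2 (hlhs q hq)
    have h1 := Finset.card_union_of_disjoint hdisj
    have h2 := Finset.card_le_univ (Q x ∪ (Finset.univ.filter fun q => lhs T z q ≠ b q))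
    rw [h1, Fintype.card_fin] at h2
    have := hb z
    omega
  -- the fibres
  let f : (Fin n → Bool) → (Fin (5 * N) → (Fin 5 → ZMod 2)) × Finset (Fin (5 * N)) :=
    fun x => (σ x, Q x)
  have hfib : ∀ a ∈ S.image f, (S.filter fun x => f x = a).card
      ≤ 2 ^ (n - 1024 * (5 * N) + 128 * N) := by
    intro a ha
    obtain ⟨x0, hx0, rfl⟩ := Finset.mem_image.1 ha
    set R : Finset (Fin n) := (Finset.univ : Finset (Vert (5 * N))).map ι with hR
    set B : Finset (Fin n) := (((Q x0) ×ˢ (Finset.univ : Finset (Fin 16 × Bool))).image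
      fun p => ι (p.1, σ x0 p.1, p.2)) with hB
    have hRc : (Rᶜ).card = n - 1024 * (5 * N) := by
      rw [Finset.card_compl, hR, Finset.card_map, Finset.card_univ, hcard, Fintype.card_fin]
    have hBc : B.card ≤ 128 * N := by
      refine Finset.card_image_le.trans ?_
      rw [Finset.card_product, Finset.card_univ]
      have h32 : Fintype.card (Fin 16 × Bool) = 32 := by simp
      rw [h32]
      have := hQ x0 hx0
      omega
    have hAc : (Rᶜ ∪ B).card ≤ n - 1024 * (5 * N) + 128 * N := by
      refine (Finset.card_union_le _ _).trans ?_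
      rw [hRc]; omega
    refine (card_le_two_pow_of_forced _ (Rᶜ ∪ B) ?_).trans
      (Nat.pow_le_pow_right (by norm_num) hAc)
    intro x hx i hi
    rw [Finset.mem_filter] at hx
    obtain ⟨hxS, hxf⟩ := hx
    have hσe : σ x = σ x0 := congrArg Prod.fst hxf
    have hQe : Q x = Q x0 := congrArg Prod.snd hxf
    rw [Finset.mem_union, not_or, Finset.mem_compl, not_not] at hi
    obtain ⟨hiR, hiB⟩ := hi
    rw [hR, Finset.mem_map] at hiR
    obtain ⟨⟨q, s, c⟩, -, rfl⟩ := hiR
    by_contra hne
    have hfalse : x (ι (q, s, c)) = false := by simpa using hne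
    obtain ⟨hJ, hs⟩ := huniq x hxS q s c hfalse
    apply hiB
    rw [hB, Finset.mem_image]
    refine ⟨(q, c), ?_, ?_⟩
    · rw [Finset.mem_product]
      refine ⟨?_, Finset.mem_univ _⟩
      rw [← hQe]
      simpa [Q] using hJ
    · show ι (q, σ x0 q, c) = _
      rw [hs, hσe]
  have hmain := Finset.card_le_mul_card_image (f := f) S _ hfib
  have himg : (S.image f).card ≤ 2 ^ (30 * N) := by
    refine (Finset.card_le_univ _).trans ?_
    rw [Fintype.card_prod, Fintype.card_fun, Fintype.card_fun, Fintype.card_finset, ZMod.card,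
      Fintype.card_fin, Fintype.card_fin, ← pow_mul, ← pow_add]
    apply le_of_eq; congr 1; ring
  calc S.card ≤ 2 ^ (n - 1024 * (5 * N) + 128 * N) * (S.image f).card := hmain
    _ ≤ 2 ^ (n - 1024 * (5 * N) + 128 * N) * 2 ^ (30 * N) := Nat.mul_le_mul_left _ himg
    _ = 2 ^ (n - 1024 * (5 * N) + 30 * N + 128 * N) := by
      rw [← pow_add]; congr 1; ring

end Pool.Agent.Helper94.SN
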