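import Mathlib

/-!
# Variables that occur once in a set of equations
-/

set_option autoImplicit false

namespace Pool.Agent.Helper94.SN

/-- the variables that occur exactly once (counted with multiplicity) in the equations of `R` -/
def uniq {M N : ℕ} (T : Fin M → Fin 5 → Fin N) (R : Finset (Fin M)) : Finset (Fin N) :=
  Finset.univ.filter fun v =>
    ((R ×ˢ (Finset.univ : Finset (Fin 5))).filter fun p => T p.1 p.2 = v).card = 1

end Pool.Agent.Helper94.SN
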