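import Mathlib
import Pool.Agent.Helper94.SN.Uniq

set_option autoImplicit false

namespace Pool.Agent.Helper94.SN

open Finset

/-- the variables of `R` -/
def vars {M N : ℕ} (T : Fin M → Fin 5 → Fin N) (R : Finset (Fin M)) : Finset (Fin N) :=
  (R ×ˢ (Finset.univ : Finset (Fin 5))).image fun p => T p.1 p.2

lemma two_vars_le {M N : ℕ} (T : Fin M → Fin 5 → Fin N) (R : Finset (Fin M)) :
    2 * (vars T R).card ≤ 5 * R.card + (uniq T R).card := by
  set mult : Fin N → ℕ := fun v =>
    ((R ×ˢ (Finset.univ : Finset (Fin 5))).filter fun p => T p.1 p.2 = v).card with hmult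
  have h1 : 5 * R.card = ∑ v ∈ vars T R, mult v := by
    have h2 : (R ×ˢ (Finset.univ : Finset (Fin 5))).card = ∑ v ∈ vars T R, mult v :=
      Finset.card_eq_sum_card_image (fun p : Fin M × Fin 5 => T p.1 p.2) _
    rw [← h2, Finset.card_product]
    simp [mul_comm]
  have h3 : ∀ v ∈ vars T R, 2 ≤ mult v + (if v ∈ uniq T R then 1 else 0) := by
    intro v hv
    have hpos : 0 < mult v := by
      rw [hmult]
      rw [vars, Finset.mem_image] at hv
      obtain ⟨p, hp, hpv⟩ := hv
      exact Finset.card_pos.2 ⟨p, Finset.mem_filter.2 ⟨hp, hpv⟩⟩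
    split_ifs with h
    · omega
    · have : mult v ≠ 1 := by
        intro h1
        apply h
        rw [uniq, Finset.mem_filter]
        exact ⟨Finset.mem_univ _, h1⟩
      omega
  have h4 := Finset.sum_le_sum h3
  rw [Finset.sum_const, smul_eq_mul, Finset.sum_add_distrib, ← h1] at h4
  have h5 : ∑ v ∈ vars T R, (if v ∈ uniq T R then 1 else 0) ≤ (uniq T R).card := by
    rw [← Finset.card_filter]
    refine Finset.card_le_card fun v hv => ?_
    exact (Finset.mem_filter.1 hv).2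
  omega

lemma pow_self_le (n : ℕ) : (n : ℝ) ^ n ≤ 3 ^ n * n.factorial := by
  have h1 := Real.pow_div_factorial_le_exp (n : ℝ) (by positivity) n
  have h2 : Real.exp n ≤ 3 ^ n := by
    rw [← Real.exp_one_pow]
    gcongr
    linarith [Real.exp_one_lt_d9]
  rw [div_le_iff₀ (by positivity)] at h1
  calc (n : ℝ) ^ n ≤ Real.exp n * n.factorial := h1
    _ ≤ _ := by gcongr

/-- the basic estimate -/
lemma basic (N r : ℕ) (hr : 1 ≤ r) (hrN : 7290 * r ≤ N) :
    ((5 * N).choose r : ℝ) * (N.choose (3 * r)) * ((3 * r : ℕ) : ℝ) ^ (5 * r) * 2 ^ r ≤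
      (N : ℝ) ^ (5 * r) := by
  have hr0 : (0 : ℝ) < r := by exact_mod_cast hr
  have h1 : ((5 * N).choose r : ℝ) ≤ (5 * N : ℝ) ^ r / r.factorial := by
    have := Nat.choose_le_pow_div (α := ℝ) r (5 * N)
    push_cast at this
    exact this
  have h2 : (N.choose (3 * r) : ℝ) ≤ (N : ℝ) ^ (3 * r) / (3 * r).factorial :=
    Nat.choose_le_pow_div (α := ℝ) (3 * r) N
  have h3 := pow_self_le r
  have h4 := pow_self_le (3 * r)
  have h5 : (5 * N : ℝ) ^ r / r.factorial ≤ (5 * N : ℝ) ^ r * 3 ^ r / (r : ℝ) ^ r := by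
    rw [div_le_div_iff₀ (by positivity) (by positivity)]
    calc (5 * N : ℝ) ^ r * (r : ℝ) ^ r ≤ (5 * N : ℝ) ^ r * (3 ^ r * r.factorial) := by gcongr
      _ = _ := by ring
  have h6 : (N : ℝ) ^ (3 * r) / (3 * r).factorial ≤
      (N : ℝ) ^ (3 * r) * 3 ^ (3 * r) / ((3 * r : ℕ) : ℝ) ^ (3 * r) := by
    rw [div_le_div_iff₀ (by positivity) (by positivity)]
    calc (N : ℝ) ^ (3 * r) * ((3 * r : ℕ) : ℝ) ^ (3 * r)
        ≤ (N : ℝ) ^ (3 * r) * (3 ^ (3 * r) * (3 * r).factorial) := by gcongr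
      _ = _ := by ring
  have h7 : ((r : ℝ) * 7290) ≤ N := by
    have : ((7290 * r : ℕ) : ℝ) ≤ N := by exact_mod_cast hrN
    push_cast at this
    linarith
  calc ((5 * N).choose r : ℝ) * (N.choose (3 * r)) * ((3 * r : ℕ) : ℝ) ^ (5 * r) * 2 ^ r
      ≤ ((5 * N : ℝ) ^ r * 3 ^ r / (r : ℝ) ^ r) *
        ((N : ℝ) ^ (3 * r) * 3 ^ (3 * r) / ((3 * r : ℕ) : ℝ) ^ (3 * r)) *
        ((3 * r : ℕ) : ℝ) ^ (5 * r) * 2 ^ r := by
        gcongr
        · exact h1.trans h5
        · exact h2.trans h6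
    _ = (N : ℝ) ^ (4 * r) * ((r : ℝ) * 7290) ^ r := by
        have e1 : ((3 * r : ℕ) : ℝ) = 3 * r := by push_cast; ring
        rw [e1]
        have e2 : (3 * (r : ℝ)) ^ (5 * r) = (3 * (r : ℝ)) ^ (3 * r) * (3 * (r : ℝ)) ^ (2 * r) := by
          rw [← pow_add]
          congr 1
          ring
        rw [e2]
        have e3 : (3 * (r : ℝ)) ^ (2 * r) = 9 ^ r * ((r : ℝ) ^ r * (r : ℝ) ^ r) := by
          rw [mul_pow, pow_mul (3 : ℝ), pow_mul (r : ℝ) 2 r]
          norm_num
          ring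
        rw [e3]
        have e4 : (3 : ℝ) ^ (3 * r) = 27 ^ r := by rw [pow_mul]; norm_num
        rw [e4, show (N : ℝ) ^ (4 * r) = (N : ℝ) ^ r * (N : ℝ) ^ (3 * r) by
          rw [← pow_add]; congr 1; ring]
        have e5 : ((r : ℝ) * 7290) ^ r = (r : ℝ) ^ r * (5 ^ r * 3 ^ r * 27 ^ r * 9 ^ r * 2 ^ r) := by
          rw [← mul_pow, ← mul_pow, ← mul_pow, ← mul_pow, ← mul_pow]
          norm_num
        rw [e5, mul_pow (5 : ℝ)]
        have hrr : (r : ℝ) ^ r ≠ 0 := by positivity
        have h3r : (3 * (r : ℝ)) ^ (3 * r) ≠ 0 := by positivity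
        field_simp
    _ ≤ (N : ℝ) ^ (4 * r) * (N : ℝ) ^ r := by gcongr
    _ = (N : ℝ) ^ (5 * r) := by
        rw [← pow_add]
        congr 1
        ring

lemma card_bad (N : ℕ) (R : Finset (Fin (5 * N))) (V : Finset (Fin N)) :
    (Fintype.piFinset (fun q => if q ∈ R then Fintype.piFinset (fun _ : Fin 5 => V)
      else (univ : Finset (Fin 5 → Fin N)))).card =
      V.card ^ (5 * R.card) * N ^ (5 * (5 * N - R.card)) := by
  rw [Fintype.card_piFinset]
  have h1 : ∀ q : Fin (5 * N), (if q ∈ R then Fintype.piFinset (fun _ : Fin 5 => V)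
      else (univ : Finset (Fin 5 → Fin N))).card = if q ∈ R then V.card ^ 5 else N ^ 5 := by
    intro q
    split_ifs
    · rw [Fintype.card_piFinset]
      simp
    · simp
  simp only [h1]
  rw [Finset.prod_ite]
  simp only [Finset.prod_const]
  have h2 : (univ.filter (fun q => q ∈ R)) = R := by ext; simp
  have h3 : (univ.filter (fun q => q ∉ R)).card = 5 * N - R.card := by
    have : (univ.filter (fun q => q ∉ R)) = Rᶜ := by ext; simp
    rw [this, Finset.card_compl, Fintype.card_fin]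
  rw [h2, h3, ← pow_mul, ← pow_mul]

/-- B1. -/
theorem exists_expander (N : ℕ) (hN : 0 < N) : ∃ T : Fin (5 * N) → Fin 5 → Fin N,
    ∀ R : Finset (Fin (5 * N)), 7290 * R.card ≤ N → R.card ≤ (uniq T R).card := by
  by_contra hcon
  push Not at hcon
  have hN0 : (0 : ℝ) < N := by exact_mod_cast hN
  set I : Finset ℕ := (Finset.Icc 1 N).filter (fun r => 7290 * r ≤ N) with hI
  set cov : Finset (Fin (5 * N) → Fin 5 → Fin N) := I.biUnion (fun r =>
    ((univ : Finset (Fin (5 * N))).powersetCard r).biUnion (fun R =>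
      ((univ : Finset (Fin N)).powersetCard (3 * r)).biUnion (fun V =>
        Fintype.piFinset (fun q => if q ∈ R then Fintype.piFinset (fun _ : Fin 5 => V)
          else (univ : Finset (Fin 5 → Fin N)))))) with hcov
  have hall : (univ : Finset (Fin (5 * N) → Fin 5 → Fin N)) ⊆ cov := by
    intro T _
    obtain ⟨R, hR1, hR2⟩ := hcon T
    have hR0 : 1 ≤ R.card := by omega
    have hv := two_vars_le T R
    have hvl : (vars T R).card ≤ 3 * R.card := by omega
    have h3N : 3 * R.card ≤ (univ : Finset (Fin N)).card := by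
      rw [Finset.card_univ, Fintype.card_fin]
      omega
    obtain ⟨V, hV1, -, hV2⟩ := Finset.exists_subsuperset_card_eq (Finset.subset_univ (vars T R)) hvl h3N
    rw [hcov, Finset.mem_biUnion]
    refine ⟨R.card, ?_, ?_⟩
    · rw [hI, Finset.mem_filter, Finset.mem_Icc]
      exact ⟨⟨hR0, by omega⟩, hR1⟩
    · rw [Finset.mem_biUnion]
      refine ⟨R, Finset.mem_powersetCard.2 ⟨Finset.subset_univ _, rfl⟩, ?_⟩
      rw [Finset.mem_biUnion]
      refine ⟨V, Finset.mem_powersetCard.2 ⟨Finset.subset_univ _, hV2⟩, ?_⟩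
      rw [Fintype.mem_piFinset]
      intro q
      split_ifs with hq
      · rw [Fintype.mem_piFinset]
        intro i
        apply hV1
        rw [vars, Finset.mem_image]
        exact ⟨(q, i), Finset.mem_product.2 ⟨hq, Finset.mem_univ _⟩, rfl⟩
      · exact Finset.mem_univ _
  have hcard : ((N : ℝ) ^ 5) ^ (5 * N) ≤ (cov.card : ℝ) := by
    have h1 := Finset.card_le_card hall
    rw [Finset.card_univ, Fintype.card_fun, Fintype.card_fun, Fintype.card_fin, Fintype.card_fin,
      Fintype.card_fin] at h1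
    exact_mod_cast h1
  have hcle : (cov.card : ℝ) ≤ ∑ r ∈ I, (1 / 2 : ℝ) ^ r * ((N : ℝ) ^ 5) ^ (5 * N) := by
    have h1 : cov.card ≤ ∑ r ∈ I, (5 * N).choose r * (N.choose (3 * r) *
        ((3 * r) ^ (5 * r) * N ^ (5 * (5 * N - r)))) := by
      rw [hcov]
      refine Finset.card_biUnion_le.trans (Finset.sum_le_sum fun r _ => ?_)
      refine Finset.card_biUnion_le.trans ?_
      have h2 : ∀ R ∈ (univ : Finset (Fin (5 * N))).powersetCard r,
          (((univ : Finset (Fin N)).powersetCard (3 * r)).biUnion (fun V =>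
            Fintype.piFinset (fun q => if q ∈ R then Fintype.piFinset (fun _ : Fin 5 => V)
              else (univ : Finset (Fin 5 → Fin N))))).card ≤
          N.choose (3 * r) * ((3 * r) ^ (5 * r) * N ^ (5 * (5 * N - r))) := by
        intro R hR
        rw [Finset.mem_powersetCard] at hR
        refine Finset.card_biUnion_le.trans ?_
        have h3 : ∀ V ∈ (univ : Finset (Fin N)).powersetCard (3 * r),
            (Fintype.piFinset (fun q => if q ∈ R then Fintype.piFinset (fun _ : Fin 5 => V)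
              else (univ : Finset (Fin 5 → Fin N)))).card =
              (3 * r) ^ (5 * r) * N ^ (5 * (5 * N - r)) := by
          intro V hV
          rw [Finset.mem_powersetCard] at hV
          rw [card_bad, hV.2, hR.2]
        rw [Finset.sum_congr rfl h3, Finset.sum_const, Finset.card_powersetCard, Finset.card_univ,
          Fintype.card_fin, smul_eq_mul]
      refine (Finset.sum_le_sum h2).trans ?_
      rw [Finset.sum_const, Finset.card_powersetCard, Finset.card_univ, Fintype.card_fin,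
        smul_eq_mul]
    have h2 : (cov.card : ℝ) ≤ ∑ r ∈ I, ((5 * N).choose r : ℝ) * ((N.choose (3 * r) : ℝ) *
        (((3 * r : ℕ) : ℝ) ^ (5 * r) * (N : ℝ) ^ (5 * (5 * N - r)))) := by exact_mod_cast h1
    refine h2.trans (Finset.sum_le_sum fun r hr => ?_)
    rw [hI, Finset.mem_filter, Finset.mem_Icc] at hr
    have hb := basic N r hr.1.1 hr.2
    have hpow : ((N : ℝ) ^ 5) ^ (5 * N) = (N : ℝ) ^ (5 * r) * (N : ℝ) ^ (5 * (5 * N - r)) := by
      rw [← pow_mul, ← pow_add]
      congr 1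
      have : r ≤ 5 * N := by omega
      omega
    have h2r : (0 : ℝ) < 2 ^ r := by positivity
    have h3 : ((5 * N).choose r : ℝ) * (N.choose (3 * r)) * ((3 * r : ℕ) : ℝ) ^ (5 * r) ≤
        (1 / 2 : ℝ) ^ r * (N : ℝ) ^ (5 * r) := by
      rw [one_div_pow, one_div, ← div_eq_inv_mul, le_div_iff₀ h2r]
      exact hb
    rw [hpow]
    calc ((5 * N).choose r : ℝ) * ((N.choose (3 * r) : ℝ) *
        (((3 * r : ℕ) : ℝ) ^ (5 * r) * (N : ℝ) ^ (5 * (5 * N - r))))
        = (((5 * N).choose r : ℝ) * (N.choose (3 * r)) * ((3 * r : ℕ) : ℝ) ^ (5 * r)) *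
          (N : ℝ) ^ (5 * (5 * N - r)) := by ring
      _ ≤ ((1 / 2 : ℝ) ^ r * (N : ℝ) ^ (5 * r)) * (N : ℝ) ^ (5 * (5 * N - r)) := by gcongr
      _ = _ := by ring
  have hgeo : ∑ r ∈ I, (1 / 2 : ℝ) ^ r < 1 := by
    calc ∑ r ∈ I, (1 / 2 : ℝ) ^ r ≤ ∑ r ∈ Finset.Icc 1 N, (1 / 2 : ℝ) ^ r :=
          Finset.sum_le_sum_of_subset_of_nonneg (Finset.filter_subset _ _)
            (fun _ _ _ => by positivity)
      _ = 1 - (1 / 2) ^ N := by
          clear hcle hcard hall hcov cov hI I hcon hN hN0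
          induction N with
          | zero => simp
          | succ n ih =>
            rw [Finset.sum_Icc_succ_top (by omega), ih, pow_succ]
            ring
      _ < 1 := by
          have : (0 : ℝ) < (1 / 2) ^ N := by positivity
          linarith
  rw [← Finset.sum_mul] at hcle
  have hP : (0 : ℝ) < ((N : ℝ) ^ 5) ^ (5 * N) := by positivity
  have : (∑ r ∈ I, (1 / 2 : ℝ) ^ r) * ((N : ℝ) ^ 5) ^ (5 * N) < 1 * ((N : ℝ) ^ 5) ^ (5 * N) := by
    gcongr
  linarith

end Pool.Agent.Helper94.SN
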