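import Mathlib

set_option autoImplicit false

namespace Pool.Agent.Helper94.SN

lemma far_sum {M : ℕ} (a : Fin M → ZMod 2) :
    ∑ b : Fin M → ZMod 2, (1 / 3 : ℚ) ^ (Finset.univ.filter fun q => a q ≠ b q).card = (4 / 3) ^ M := by
  have h1 : ∀ b : Fin M → ZMod 2, (1 / 3 : ℚ) ^ (Finset.univ.filter fun q => a q ≠ b q).card =
      ∏ q, (if a q ≠ b q then (1 / 3 : ℚ) else 1) := by
    intro b
    rw [Finset.prod_ite]
    simp
  simp only [h1]
  have h2 := Finset.prod_univ_sum (fun _ : Fin M => (Finset.univ : Finset (ZMod 2)))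
    (fun q c => if a q ≠ c then (1 / 3 : ℚ) else 1)
  rw [Fintype.piFinset_univ] at h2
  rw [← h2]
  have h3 : ∀ x : ZMod 2, ∑ c : ZMod 2, (if x ≠ c then (1 / 3 : ℚ) else 1) = 4 / 3 := by
    intro x
    have : ∀ x : ZMod 2, (Finset.univ.filter fun c : ZMod 2 => x ≠ c).card = 1 ∧
        (Finset.univ.filter fun c : ZMod 2 => ¬ x ≠ c).card = 1 := by decide
    rw [Finset.sum_ite, Finset.sum_const, Finset.sum_const, (this x).1, (this x).2]
    norm_num
  rw [Finset.prod_congr rfl (fun q _ => h3 (a q)), Finset.prod_const, Finset.card_univ,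
    Fintype.card_fin]

/-- B2. -/
theorem exists_far (N : ℕ) (hN : 0 < N) (A : (Fin N → ZMod 2) → Fin (5 * N) → ZMod 2) :
    ∃ b : Fin (5 * N) → ZMod 2, ∀ z, N ≤ (Finset.univ.filter fun q => A z q ≠ b q).card := by
  by_contra hcon
  push Not at hcon
  have h1 : ∑ b : Fin (5 * N) → ZMod 2, ∑ z : Fin N → ZMod 2,
      (1 / 3 : ℚ) ^ (Finset.univ.filter fun q => A z q ≠ b q).card = 2 ^ N * (4 / 3) ^ (5 * N) := by
    rw [Finset.sum_comm]
    simp only [far_sum]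
    rw [Finset.sum_const, Finset.card_univ, Fintype.card_fun, ZMod.card, Fintype.card_fin]
    simp
  have h2 : (2 : ℚ) ^ (5 * N) * (1 / 3) ^ (N - 1) ≤ ∑ b : Fin (5 * N) → ZMod 2,
      ∑ z : Fin N → ZMod 2, (1 / 3 : ℚ) ^ (Finset.univ.filter fun q => A z q ≠ b q).card := by
    have hc : (2 : ℚ) ^ (5 * N) * (1 / 3) ^ (N - 1) =
        ∑ b : Fin (5 * N) → ZMod 2, (1 / 3 : ℚ) ^ (N - 1) := by
      rw [Finset.sum_const, Finset.card_univ, Fintype.card_fun, ZMod.card, Fintype.card_fin]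
      simp
    rw [hc]
    refine Finset.sum_le_sum fun b _ => ?_
    obtain ⟨z, hz⟩ := hcon b
    calc (1 / 3 : ℚ) ^ (N - 1) ≤ (1 / 3 : ℚ) ^ (Finset.univ.filter fun q => A z q ≠ b q).card :=
          pow_le_pow_of_le_one (by norm_num) (by norm_num) (by omega)
      _ ≤ _ := Finset.single_le_sum
          (f := fun z => (1 / 3 : ℚ) ^ (Finset.univ.filter fun q => A z q ≠ b q).card)
          (fun _ _ => by positivity) (Finset.mem_univ z)
  rw [h1] at h2
  obtain ⟨n, rfl⟩ : ∃ n, N = n + 1 := ⟨N - 1, by omega⟩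
  rw [Nat.add_sub_cancel] at h2
  have h3 : (2 : ℚ) ^ (5 * (n + 1)) * (1 / 3) ^ n = 32 * (32 / 3) ^ n := by
    rw [show 5 * (n + 1) = 5 * n + 5 by ring, pow_add, pow_mul]
    rw [show (32 / 3 : ℚ) = 2 ^ 5 * (1 / 3) by norm_num, mul_pow]
    ring
  have h4 : (2 : ℚ) ^ (n + 1) * (4 / 3) ^ (5 * (n + 1)) = (2048 / 243) * (2048 / 243) ^ n := by
    rw [show 5 * (n + 1) = 5 * n + 5 by ring, pow_add (4 / 3 : ℚ), pow_mul]
    rw [show (2048 / 243 : ℚ) ^ n = 2 ^ n * ((4 / 3) ^ 5) ^ n by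
      rw [← mul_pow]; norm_num]
    ring
  rw [h3, h4] at h2
  have h5 : (2048 / 243 : ℚ) ^ n ≤ (32 / 3) ^ n :=
    pow_le_pow_left₀ (by norm_num) (by norm_num) n
  have h6 : (0 : ℚ) < (32 / 3) ^ n := by positivity
  linarith

end Pool.Agent.Helper94.SN
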