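import Pool.Agent.Helper94.SN.Main
import Pool.Agent.Helper94.SN.ExpB1
import Pool.Agent.Helper94.SN.Far
import Pool.Agent.Helper94.SN.Count

/-!
# Lower bound for symmetric networks that count the models of monotone 2-CNFs
-/

set_option autoImplicit false

namespace Pool.Agent.Helper94.SN

open Equiv Equiv.Perm

variable {M N n : ℕ}

theorem closed_empty {T : Fin M → Fin 5 → Fin N} {f : ℕ}
    (hT : ∀ R : Finset (Fin M), R.card ≤ 10 * f → R.card ≤ (uniq T R).card) :
    Closed T (5 * f) ∅ := by
  intro R hR _ hR5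
  have h1 := hT R (by omega)
  have h2 := hR.card_pos
  have h3 : (uniq T R).Nonempty := by
    rw [← Finset.card_pos]; omega
  obtain ⟨v, hv⟩ := h3
  refine ⟨v, hv, ?_⟩
  intro h4
  obtain ⟨q, hq, -⟩ := mem_cvars.1 h4
  exact absurd hq (Finset.notMem_empty _)

/-- the case of at least `5120` variables -/
theorem exists_pair_large (n : ℕ) (hn : 5120 ≤ n) (Γ : Subgroup (Perm (Fin n))) :
    ∃ y y' : Sym2 (Fin n) → Bool, 2 ^ (2 * (n / 5120)) * models n y' ≤ models n y ∧
      ∀ (s : ℕ) (S : Type) (C : Network n s S), C.IsSymmetric Γ →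
        ∀ k : ℕ, 437400 * k ≤ n / 5120 → Γ.index * s < 2 ^ k →
        ∀ t, C.state y t C.out = C.state y' t C.out := by
  classical
  set N := n / 5120 with hN
  have hNpos : 0 < N := by rw [hN]; omega
  have hNn : 5120 * N ≤ n := by rw [hN]; exact Nat.mul_div_le n 5120
  obtain ⟨T, hT⟩ := exists_expander N hNpos
  obtain ⟨b, hb⟩ := exists_far N hNpos (lhs T)
  have hcard : Fintype.card (Vert (5 * N)) ≤ Fintype.card (Fin n) := by
    simp only [Fintype.card_prod, Fintype.card_fin, Fintype.card_fun, ZMod.card, Fintype.card_bool]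
    omega
  obtain ⟨ι⟩ := Function.Embedding.nonempty_of_card_le hcard
  -- the largest admissible `k`
  set K := N / 437400 with hK
  have hKN : 437400 * K ≤ N := by rw [hK]; exact Nat.mul_div_le N 437400
  have hT' : ∀ R : Finset (Fin (5 * N)), R.card ≤ 10 * (6 * K) → R.card ≤ (uniq T R).card := by
    intro R hR
    apply hT
    omega
  obtain ⟨cl, hcl⟩ := exists_closure hT'
  -- a solvable right hand side that agrees with `b` near the small set of `Γ`
  have hsol : ∃ z : Fin N → ZMod 2, (foot ι (small Γ)).card ≤ 6 * K →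
      ∀ q ∈ cl (foot ι (small Γ)), lhs T z q = b q := by
    by_cases hc : (foot ι (small Γ)).card ≤ 6 * K
    · obtain ⟨z, -, hz⟩ := (closed_empty hT').solve b _ (cl (foot ι (small Γ))) rfl
        (Finset.disjoint_empty_right _) (hcl _ hc).2.1
      exact ⟨z, fun _ => hz⟩
    · exact ⟨0, fun h => absurd h hc⟩
  obtain ⟨z, hz⟩ := hsol
  refine ⟨inst T ι (lhs T z), inst T ι b, ?_, ?_⟩
  · have h1 : models n (inst T ι (lhs T z)) = models n (inst T ι 0) := by
      apply models_perm (act T ι z)
      intro e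
      have := inst_act T ι z 0 e
      rwa [zero_add] at this
    rw [h1]
    have h2 := models_zero T ι
    have h3 := models_far T ι b hb
    refine le_trans ?_ h2
    refine (Nat.mul_le_mul_left _ h3).trans ?_
    rw [← pow_add]
    apply Nat.pow_le_pow_right (by norm_num)
    omega
  · intro s S C hC k hk hks t
    have hsz : 0 < s := by
      have := C.out.2
      omega
    have hkK : k ≤ K := by
      rw [hK, Nat.le_div_iff_mul_le (by norm_num)]
      omega
    have hks' : Γ.index * s < 2 ^ K :=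
      lt_of_lt_of_le hks (Nat.pow_le_pow_right (by norm_num) hkK)
    have hKn : 12 * K < n := by omega
    have h1 : Γ.index < 2 ^ K := by
      refine lt_of_le_of_lt ?_ hks'
      exact Nat.le_mul_of_pos_right _ hsz
    have h2 : (foot ι (small Γ)).card ≤ 6 * K :=
      (card_foot_le ι _).trans (small_card h1 (by rw [Fintype.card_fin]; exact hKn))
    apply state_eq hC hks' hKn hcl ι t
    rw [Network.stab_out hC]
    exact hz h2

theorem models_ones (n : ℕ) : models n (fun _ => true) = 1 := by
  unfold models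
  rw [Fintype.card_eq_one_iff]
  refine ⟨⟨fun _ => true, fun _ _ _ => Or.inl rfl⟩, ?_⟩
  rintro ⟨x, hx⟩
  apply Subtype.ext
  funext i
  rcases hx i i rfl with h | h <;> exact h

theorem models_zeros (n : ℕ) : models n (fun _ => false) = 2 ^ n := by
  unfold models
  have h1 : ∀ x : Fin n → Bool, ∀ i j, (fun _ : Sym2 (Fin n) => false) s(i, j) = true →
      (x i = true ∨ x j = true) := by
    intro x i j h
    exact absurd h (by simp)
  rw [Fintype.card_congr (Equiv.subtypeUnivEquiv h1), Fintype.card_fun, Fintype.card_bool,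
    Fintype.card_fin]

/-- The lower bound. -/
theorem main (n : ℕ) (Γ : Subgroup (Perm (Fin n))) :
    ∃ y y' : Sym2 (Fin n) → Bool,
      (2 : ℝ) ^ ((n : ℝ) / 10 ^ 10) * models n y' ≤ models n y ∧
      ∀ (s : ℕ) (S : Type) (C : Network n s S), C.IsSymmetric Γ →
        (2 * Γ.index * s : ℝ) < (2 : ℝ) ^ ((n : ℝ) / 10 ^ 10) →
        ∀ t, C.state y t C.out = C.state y' t C.out := by
  -- from the real to the natural exponent
  have hk : ∀ s : ℕ, (2 * Γ.index * s : ℝ) < (2 : ℝ) ^ ((n : ℝ) / 10 ^ 10) →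
      Γ.index * s < 2 ^ (n / 10 ^ 10) := by
    intro s hs
    have h1 : (n : ℝ) / 10 ^ 10 ≤ ((n / 10 ^ 10 + 1 : ℕ) : ℝ) := by
      rw [div_le_iff₀ (by positivity)]
      have h2 : n < (n / 10 ^ 10 + 1) * 10 ^ 10 := by omega
      exact_mod_cast h2.le
    have h3 : (2 : ℝ) ^ ((n : ℝ) / 10 ^ 10) ≤ (2 : ℝ) ^ (n / 10 ^ 10 + 1) := by
      rw [← Real.rpow_natCast 2 (n / 10 ^ 10 + 1)]
      exact Real.rpow_le_rpow_of_exponent_le (by norm_num) h1
    have h4 : (2 * Γ.index * s : ℝ) < (2 : ℝ) ^ (n / 10 ^ 10 + 1) := lt_of_lt_of_le hs h3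
    rw [pow_succ] at h4
    have h5 : ((Γ.index * s : ℕ) : ℝ) < ((2 ^ (n / 10 ^ 10) : ℕ) : ℝ) := by
      push_cast
      linarith
    exact_mod_cast h5
  rcases Nat.lt_or_ge n 5120 with hn | hn
  · refine ⟨fun _ => false, fun _ => true, ?_, ?_⟩
    · rw [models_ones, models_zeros]
      push_cast
      rw [mul_one, ← Real.rpow_natCast 2 n]
      apply Real.rpow_le_rpow_of_exponent_le (by norm_num)
      apply div_le_self (Nat.cast_nonneg n)
      norm_num
    · intro s S C hC hs t
      exfalso
      have h1 := hk s hs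
      rw [Nat.div_eq_of_lt (by omega), pow_zero, Nat.lt_one_iff, Nat.mul_eq_zero] at h1
      rcases h1 with h1 | h1
      · exact Subgroup.index_ne_zero_of_finite h1
      · have := C.out.2
        omega
  · obtain ⟨y, y', h1, h2⟩ := exists_pair_large n hn Γ
    refine ⟨y, y', ?_, ?_⟩
    · have h3 : (2 : ℝ) ^ ((n : ℝ) / 10 ^ 10) ≤ (2 : ℝ) ^ (2 * (n / 5120)) := by
        rw [← Real.rpow_natCast 2 (2 * (n / 5120))]
        apply Real.rpow_le_rpow_of_exponent_le (by norm_num)
        rw [div_le_iff₀ (by positivity)]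
        have h4 : n ≤ 2 * (n / 5120) * 10 ^ 10 := by omega
        exact_mod_cast h4
      have h5 : ((2 ^ (2 * (n / 5120)) * models n y' : ℕ) : ℝ) ≤ (models n y : ℕ) := by
        exact_mod_cast h1
      push_cast at h5
      refine le_trans ?_ h5
      exact mul_le_mul_of_nonneg_right h3 (Nat.cast_nonneg _)
    · intro s S C hC hs t
      apply h2 s S C hC (n / 10 ^ 10) _ (hk s hs) t
      omega

end Pool.Agent.Helper94.SN
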