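import Mathlib

/-!
# Symmetric networks, and the counting function of monotone 2-CNFs

The definitions used in the statement of the lower bound.
-/

set_option autoImplicit false

namespace Pool.Agent.Helper94.SN

/-- The number of satisfying assignments `x : Fin n → Bool` of the monotone 2-CNF in the variables
`x₀, …, x_{n-1}` whose clauses are the `(xᵢ ∨ xⱼ)` with `y s(i, j) = true` (for `i = j` this is the
unit clause `xᵢ`). -/
def models (n : ℕ) (y : Sym2 (Fin n) → Bool) : ℕ :=
  Fintype.card {x : Fin n → Bool // ∀ i j, y s(i, j) = true → (x i = true ∨ x j = true)}

/-- A network of `s` cells over the input bits `y e`, `e : Sym2 (Fin n)`, with states in `S`.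
* `input g` is the input bit read by cell `g`, if any;
* `wires g` lists the cells read by cell `g`, each with a natural number as a label of the wire
  (several wires may have the same label);
* `init g` is the initial state of cell `g`;
* `rule g` gives the next state of cell `g` from its input bit (if it reads one) and the multiset
  of the pairs (label, state of the cell) over its wires; it is an arbitrary function.
All cells are updated at the same time.  An acyclic network is a circuit: after as many steps as
there are cells each cell holds the value of the gate. -/
structure Network (n s : ℕ) (S : Type) where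
  input : Fin s → Option (Sym2 (Fin n))
  wires : Fin s → Multiset (ℕ × Fin s)
  init : Fin s → S
  rule : Fin s → Option Bool → Multiset (ℕ × S) → S
  out : Fin s

namespace Network

variable {n s : ℕ} {S : Type}

/-- the state of cell `g` after `t` steps on the input `y` -/
def state (C : Network n s S) (y : Sym2 (Fin n) → Bool) : ℕ → Fin s → S
  | 0, g => C.init g
  | t + 1, g => C.rule g ((C.input g).map y) ((C.wires g).map fun p => (p.1, C.state y t p.2))

/-- `α` is an automorphism of the network over the permutation `π` of the variables, which fixes
the output cell. -/
structure IsAut (C : Network n s S) (π : Equiv.Perm (Fin n)) (α : Equiv.Perm (Fin s)) : Prop where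
  input : ∀ g, C.input (α g) = (C.input g).map (Sym2.map π)
  wires : ∀ g, C.wires (α g) = (C.wires g).map fun p => (p.1, α p.2)
  init : ∀ g, C.init (α g) = C.init g
  rule : ∀ g, C.rule (α g) = C.rule g
  out : α C.out = C.out

/-- every permutation of the variables in `Γ` extends to an automorphism of the network -/
def IsSymmetric (C : Network n s S) (Γ : Subgroup (Equiv.Perm (Fin n))) : Prop :=
  ∀ π ∈ Γ, ∃ α, C.IsAut π α

end Network

end Pool.Agent.Helper94.SN
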