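import Pool.Agent.Helper94.SN.Support

/-!
# The small set of a subgroup of the symmetric group
-/

set_option autoImplicit false
set_option linter.unusedSectionVars false

namespace Pool.Agent.Helper94.SN

open Equiv Equiv.Perm

variable {Ω : Type*} [Fintype Ω] [DecidableEq Ω]

open Classical in
/-- the points related to at most half of the points -/
noncomputable def small (H : Subgroup (Perm Ω)) : Finset Ω :=
  Finset.univ.filter fun x =>
    2 * (Finset.univ.filter fun y => Rel H x y).card ≤ Fintype.card Ω

theorem mem_small {H : Subgroup (Perm Ω)} {x : Ω} :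
    x ∈ small H ↔ 2 * (Nat.card {y // Rel H x y}) ≤ Fintype.card Ω := by
  classical
  unfold small
  rw [Finset.mem_filter, Nat.card_eq_fintype_card, Fintype.card_subtype]
  simp only [Finset.mem_univ, true_and]

theorem rel_of_notMem {H : Subgroup (Perm Ω)} {x y : Ω} (hx : x ∉ small H) (hy : y ∉ small H) :
    Rel H x y := by
  classical
  unfold small at hx hy
  simp only [Finset.mem_filter, Finset.mem_univ, true_and, not_le] at hx hy
  set A := Finset.univ.filter fun z => Rel H x z with hA
  set B := Finset.univ.filter fun z => Rel H y z with hB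
  have h1 : (A ∩ B).Nonempty := by
    rw [← Finset.card_pos]
    have h2 := Finset.card_union_add_card_inter A B
    have h3 := Finset.card_le_univ (A ∪ B)
    have h4 : Fintype.card Ω < 2 * A.card := by convert hx
    have h5 : Fintype.card Ω < 2 * B.card := by convert hy
    omega
  obtain ⟨z, hz⟩ := h1
  rw [Finset.mem_inter, hA, hB, Finset.mem_filter, Finset.mem_filter] at hz
  exact hz.1.2.trans hz.2.2.symm

theorem small_card {H : Subgroup (Perm Ω)} {k : ℕ} (hH : H.index < 2 ^ k)
    (hk : 12 * k < Fintype.card Ω) : (small H).card ≤ 6 * k := by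
  classical
  obtain ⟨O, hO, hrel⟩ := exists_large H hH
  have h1 : Disjoint (small H) O := by
    rw [Finset.disjoint_right]
    intro x hx hs
    rw [mem_small, Nat.card_eq_fintype_card, Fintype.card_subtype] at hs
    have h2 : O.card ≤ (Finset.univ.filter fun y => Rel H x y).card := by
      apply Finset.card_le_card
      intro y hy
      rw [Finset.mem_filter]
      exact ⟨Finset.mem_univ _, hrel x hx y hy⟩
    omega
  have h2 := Finset.card_le_univ (small H ∪ O)
  rw [Finset.card_union_of_disjoint h1] at h2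
  omega

theorem rel_conj {H H' : Subgroup (Perm Ω)} {g : Perm Ω}
    (hg : ∀ h : Perm Ω, h ∈ H → g * h * g⁻¹ ∈ H') {x y : Ω} (h : Rel H x y) :
    Rel H' (g x) (g y) := by
  rcases h with h | ⟨z, hxy, hxz, hyz, h⟩
  · exact Or.inl (by rw [h])
  · refine Or.inr ⟨g z, g.injective.ne hxy, g.injective.ne hxz, g.injective.ne hyz, ?_⟩
    rw [← conj_cyc]
    exact hg _ h

theorem small_conj {H H' : Subgroup (Perm Ω)} {g : Perm Ω}
    (hg : ∀ h : Perm Ω, h ∈ H ↔ g * h * g⁻¹ ∈ H') (x : Ω) : g x ∈ small H' ↔ x ∈ small H := by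
  have hg' : ∀ h : Perm Ω, h ∈ H' → g⁻¹ * h * (g⁻¹)⁻¹ ∈ H := by
    intro h hh
    rw [hg]
    have : g * (g⁻¹ * h * (g⁻¹)⁻¹) * g⁻¹ = h := by group
    rwa [this]
  have hcard : Nat.card {y // Rel H' (g x) y} = Nat.card {y // Rel H x y} := by
    apply Nat.card_congr
    refine ⟨fun y => ⟨g⁻¹ y.1, ?_⟩, fun y => ⟨g y.1, ?_⟩, ?_, ?_⟩
    · have h1 := rel_conj hg' y.2
      rwa [show g⁻¹ (g x) = x from g.symm_apply_apply x] at h1
    · exact rel_conj (fun h hh => (hg h).1 hh) y.2
    · intro y
      apply Subtype.ext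
      exact g.apply_symm_apply y.1
    · intro y
      apply Subtype.ext
      exact g.symm_apply_apply y.1
  rw [mem_small, mem_small, hcard]

/-- even permutations that fix the points of the small set lie in the subgroup -/
theorem even_mem {H : Subgroup (Perm Ω)} {σ : Perm Ω} (hσ : sign σ = 1)
    (hfix : ∀ x ∈ small H, σ x = x) : σ ∈ H := by
  classical
  set p : Ω → Prop := fun x => x ∉ small H with hp
  have h1 : ∀ x, p (σ x) ↔ p x := by
    intro x
    rw [hp]
    constructor
    · intro h hx
      exact h (by rw [hfix x hx]; exact hx)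
    · intro h hx
      have h2 := hfix _ hx
      exact h (by rw [← σ.injective h2]; exact hx)
  have h2 : ∀ x, σ x ≠ x → p x := by
    intro x hx hs
    exact hx (hfix x hs)
  have h3 : ofSubtype (σ.subtypePerm h1) = σ := ofSubtype_subtypePerm h1 h2
  have h4 : σ.subtypePerm h1 ∈ alternatingGroup (Subtype p) := by
    rw [mem_alternatingGroup, sign_subtypePerm σ h1 h2, hσ]
  rw [← h3]
  rw [← closure_three_cycles_eq_alternating] at h4
  generalize σ.subtypePerm h1 = τ at h4
  induction h4 using Subgroup.closure_induction with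
  | mem g hg =>
    have hg3 : IsThreeCycle g := hg
    obtain ⟨a, ha⟩ : g.support.Nonempty := by
      rw [← Finset.card_pos, hg3.card_support]; norm_num
    have h5 := hg3.eq_swap_mul_swap_iff_mem_support.2 ha
    have h6 := hg3.nodup_iff_mem_support.2 ha
    simp only [List.nodup_cons, List.mem_cons, List.not_mem_nil, or_false, not_or,
      List.nodup_nil, and_true, not_false_eq_true] at h6
    rw [h5, map_mul, ofSubtype_swap_eq, ofSubtype_swap_eq]
    have n1 : (a : Ω) ≠ (g a : Ω) := fun h => h6.1.1 (Subtype.ext h)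
    have n2 : (a : Ω) ≠ (g (g a) : Ω) := fun h => h6.1.2 (Subtype.ext h)
    have n3 : (g a : Ω) ≠ (g (g a) : Ω) := fun h => h6.2 (Subtype.ext h)
    exact (rel_of_notMem a.2 (g a).2).cyc_mem (rel_of_notMem (g a).2 (g (g a)).2) n1 n3 n2
  | one => rw [map_one]; exact H.one_mem
  | mul x y _ _ hx hy => rw [map_mul]; exact H.mul_mem hx hy
  | inv x _ hx => rw [map_inv]; exact H.inv_mem hx

/-- a point fixed by the subgroup lies in the small set -/
theorem mem_small_of_fixed {H : Subgroup (Perm Ω)} (hn : 2 ≤ Fintype.card Ω) {x : Ω}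
    (hx : ∀ h ∈ H, h x = x) : x ∈ small H := by
  rw [mem_small]
  have h1 : ∀ y, Rel H x y → y = x := by
    intro y h
    rcases h with h | ⟨z, hxy, hxz, hyz, h⟩
    · exact h.symm
    · have h2 := hx _ h
      rw [cyc_fst hxy hxz] at h2
      exact h2
  have h2 : Nat.card {y // Rel H x y} ≤ 1 := by
    have h3 : Subsingleton {y // Rel H x y} := by
      constructor
      rintro ⟨a, ha⟩ ⟨b, hb⟩
      apply Subtype.ext
      exact (h1 a ha).trans (h1 b hb).symm
    exact Finite.card_le_one_iff_subsingleton.2 h3
  omega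

end Pool.Agent.Helper94.SN
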