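import Mathlib

/-!
# Subgroups of the symmetric group of small index

If a subgroup `H` of the symmetric group of `Ω` has index less than `2 ^ k`, then `H` contains
every even permutation that fixes a certain set of at most `6 k` points.
-/

set_option autoImplicit false
set_option linter.unusedSectionVars false

namespace Pool.Agent.Helper94.SN

open Equiv Equiv.Perm

/-! ### products of disjoint transpositions -/

/-- the product of the transpositions `(j, false) ↔ (j, true)` over the `j` with `f j` -/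
def flip {J : Type*} (f : J → Bool) : Perm (J × Bool) where
  toFun p := (p.1, xor p.2 (f p.1))
  invFun p := (p.1, xor p.2 (f p.1))
  left_inv p := by simp
  right_inv p := by simp

theorem flip_apply {J : Type*} (f : J → Bool) (j : J) (b : Bool) :
    flip f (j, b) = (j, xor b (f j)) := rfl

theorem flip_inv_mul {J : Type*} (f g : J → Bool) :
    (flip f)⁻¹ * flip g = flip (fun j => xor (f j) (g j)) := by
  ext1 p
  rcases p with ⟨j, b⟩
  have h : (flip f)⁻¹ (j, xor b (g j)) = (j, xor (xor b (g j)) (f j)) := rfl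
  rw [Perm.mul_apply, flip_apply, flip_apply, h]
  cases b <;> cases f j <;> cases g j <;> rfl

variable {Ω : Type*} [Fintype Ω] [DecidableEq Ω]

theorem exists_flip_mem (H : Subgroup (Perm Ω)) {k : ℕ} (hH : H.index < 2 ^ k)
    (e : Fin k × Bool ↪ Ω) :
    ∃ f : Fin k → Bool, f ≠ (fun _ => false) ∧ (flip f).viaEmbedding e ∈ H := by
  classical
  by_contra hcon
  push Not at hcon
  have hinj : Function.Injective
      (fun f : Fin k → Bool => ((flip f).viaEmbedding e : Perm Ω ⧸ H)) := by
    intro f g hfg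
    by_contra hne
    have h1 := QuotientGroup.eq.1 hfg
    have h2 : ((flip f).viaEmbedding e)⁻¹ * (flip g).viaEmbedding e =
        (flip (fun j => xor (f j) (g j))).viaEmbedding e := by
      rw [← flip_inv_mul]
      have h3 : (viaEmbeddingHom e (flip f))⁻¹ * viaEmbeddingHom e (flip g) =
          viaEmbeddingHom e ((flip f)⁻¹ * flip g) := by rw [map_mul, map_inv]
      exact h3
    rw [h2] at h1
    refine hcon _ ?_ h1
    intro h3
    apply hne
    ext j
    have := congrFun h3 j
    revert this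
    cases f j <;> cases g j <;> simp
  have h4 := Nat.card_le_card_of_injective _ hinj
  rw [Nat.card_eq_fintype_card, Fintype.card_fun, Fintype.card_bool, Fintype.card_fin] at h4
  exact absurd hH (not_lt.2 h4)

theorem exists_supported (H : Subgroup (Perm Ω)) {k : ℕ} (hH : H.index < 2 ^ k) {X : Finset Ω}
    (hX : 2 * k ≤ X.card) : ∃ h ∈ H, h ≠ 1 ∧ ∀ x, x ∉ X → h x = x := by
  classical
  have h1 : Nonempty (Fin k × Bool ↪ X) := by
    apply Function.Embedding.nonempty_of_card_le
    rw [Fintype.card_prod, Fintype.card_fin, Fintype.card_bool, Fintype.card_coe]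
    omega
  obtain ⟨e0⟩ := h1
  set e : Fin k × Bool ↪ Ω := e0.trans (Function.Embedding.subtype _) with he
  obtain ⟨f, hf, hmem⟩ := exists_flip_mem H hH e
  refine ⟨_, hmem, ?_, ?_⟩
  · intro h
    apply hf
    ext j
    have h2 := DFunLike.congr_fun h (e (j, false))
    rw [viaEmbedding_apply, flip_apply, Perm.one_apply] at h2
    have h3 := (Prod.ext_iff.1 (e.injective h2)).2
    simpa using h3
  · intro x hx
    apply viaEmbedding_apply_of_notMem
    rintro ⟨p, hp⟩
    apply hx
    rw [← hp]
    exact (e0 p).2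

/-! ### sets on which `H` is trivial -/

/-- the only element of `H` supported in `X` is `1` -/
def Triv (H : Subgroup (Perm Ω)) (X : Finset Ω) : Prop := ∀ h ∈ H, (∀ x, x ∉ X → h x = x) → h = 1

theorem exists_max_triv (H : Subgroup (Perm Ω)) (A : Finset Ω) :
    ∃ X : Finset Ω, Disjoint X A ∧ Triv H X ∧
      ∀ δ, δ ∉ X → δ ∉ A → ∃ h ∈ H, (∀ x, x ∉ X → x ≠ δ → h x = x) ∧ h δ ≠ δ := by
  classical
  set S : Finset (Finset Ω) := Finset.univ.filter (fun X => Disjoint X A ∧ Triv H X) with hS
  have hne : S.Nonempty := by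
    refine ⟨∅, ?_⟩
    rw [hS, Finset.mem_filter]
    refine ⟨Finset.mem_univ _, Finset.disjoint_empty_left _, ?_⟩
    intro h _ hx
    ext x
    rw [hx x (Finset.notMem_empty _)]; rfl
  obtain ⟨X, hX, hmax⟩ := Finset.exists_max_image S Finset.card hne
  rw [hS, Finset.mem_filter] at hX
  refine ⟨X, hX.2.1, hX.2.2, ?_⟩
  intro δ hδX hδA
  have h1 : insert δ X ∉ S := by
    intro h
    have := hmax _ h
    rw [Finset.card_insert_of_notMem hδX] at this
    omega
  have h2 : ¬ Triv H (insert δ X) := by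
    intro h
    apply h1
    rw [hS, Finset.mem_filter]
    refine ⟨Finset.mem_univ _, ?_, h⟩
    rw [Finset.disjoint_insert_left]
    exact ⟨hδA, hX.2.1⟩
  unfold Triv at h2
  push Not at h2
  obtain ⟨h, hH, hx, hne1⟩ := h2
  refine ⟨h, hH, ?_, ?_⟩
  · intro x hxX hxδ
    apply hx
    rw [Finset.mem_insert, not_or]
    exact ⟨hxδ, hxX⟩
  · intro hδ
    apply hne1
    apply hX.2.2 h hH
    intro x hxX
    by_cases hxδ : x = δ
    · rw [hxδ, hδ]
    · apply hx
      rw [Finset.mem_insert, not_or]
      exact ⟨hxδ, hxX⟩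

theorem Triv.card_lt {H : Subgroup (Perm Ω)} {k : ℕ} (hH : H.index < 2 ^ k) {X : Finset Ω}
    (hX : Triv H X) : X.card < 2 * k := by
  by_contra h
  obtain ⟨g, hg, hne, hfix⟩ := exists_supported H hH (not_lt.1 h)
  exact hne (hX g hg hfix)

/-! ### cycles of length three -/

/-- the cycle `x → y → z → x` -/
def cyc (x y z : Ω) : Perm Ω := swap x y * swap y z

theorem conj_cyc (g : Perm Ω) (x y z : Ω) : g * cyc x y z * g⁻¹ = cyc (g x) (g y) (g z) := by
  unfold cyc
  rw [swap_apply_apply, swap_apply_apply]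
  group

theorem cyc_fst {x y z : Ω} (hxy : x ≠ y) (hxz : x ≠ z) : cyc x y z x = y := by
  unfold cyc
  rw [Perm.mul_apply, swap_apply_of_ne_of_ne hxy hxz, swap_apply_left]

theorem cyc_snd {x y z : Ω} (hxz : x ≠ z) (hyz : y ≠ z) : cyc x y z y = z := by
  unfold cyc
  rw [Perm.mul_apply, swap_apply_left, swap_apply_of_ne_of_ne hxz.symm hyz.symm]

theorem cyc_trd (x y z : Ω) : cyc x y z z = x := by
  unfold cyc
  rw [Perm.mul_apply, swap_apply_right, swap_apply_right]

theorem cyc_of_ne {x y z w : Ω} (h1 : w ≠ x) (h2 : w ≠ y) (h3 : w ≠ z) : cyc x y z w = w := by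
  unfold cyc
  rw [Perm.mul_apply, swap_apply_of_ne_of_ne h2 h3, swap_apply_of_ne_of_ne h1 h2]

theorem cyc_inv (x y z : Ω) : (cyc x y z)⁻¹ = cyc z y x := by
  unfold cyc
  rw [mul_inv_rev, swap_inv, swap_inv, swap_comm y z, swap_comm x y]

theorem cyc_rot {x y z : Ω} (hxy : x ≠ y) (hxz : x ≠ z) (hyz : y ≠ z) :
    cyc x y z = cyc y z x := by
  ext w
  by_cases h1 : w = x
  · rw [h1, cyc_fst hxy hxz, cyc_trd]
  · by_cases h2 : w = y
    · rw [h2, cyc_snd hxz hyz, cyc_fst hyz hxy.symm]
    · by_cases h3 : w = z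
      · rw [h3, cyc_trd, cyc_snd hxy.symm hxz.symm]
      · rw [cyc_of_ne h1 h2 h3, cyc_of_ne h2 h3 h1]

variable {H : Subgroup (Perm Ω)}

theorem conj_mem {g : Perm Ω} (hg : g ∈ H) {x y z : Ω} (h : cyc x y z ∈ H) :
    cyc (g x) (g y) (g z) ∈ H := by
  rw [← conj_cyc]
  exact H.mul_mem (H.mul_mem hg h) (H.inv_mem hg)

theorem cyc_symm_mem {x y z : Ω} (h : cyc x y z ∈ H) : cyc z y x ∈ H := by
  rw [← cyc_inv]; exact H.inv_mem h

/-- two cycles with two common points -/
theorem two_common {a b c d : Ω} (hab : a ≠ b) (hac : a ≠ c) (had : a ≠ d) (hbc : b ≠ c)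
    (hbd : b ≠ d) (hcd : c ≠ d) (h1 : cyc a b c ∈ H) (h2 : cyc d b c ∈ H) :
    cyc a c d ∈ H ∧ cyc a d b ∈ H := by
  constructor
  · have h := conj_mem h2 h1
    rwa [cyc_of_ne had hab hac, cyc_snd hcd.symm hbc, cyc_trd] at h
  · have h3 : cyc c b d ∈ H := cyc_symm_mem h2
    have h := conj_mem h3 h1
    rw [cyc_of_ne hac hab had, cyc_snd hcd hbd, cyc_fst hbc.symm hcd] at h
    exact h

/-- two cycles with a common point generate all cycles on their points -/
theorem cyc_mem_of {x y z p q : Ω} (hxy : x ≠ y) (hxp : x ≠ p) (hyp : y ≠ p) (hyz : y ≠ z)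
    (hyq : y ≠ q) (hzq : z ≠ q) (hxz : x ≠ z) (h1 : cyc x y p ∈ H) (h2 : cyc y z q ∈ H) :
    cyc x y z ∈ H := by
  by_cases hpz : p = z
  · rw [← hpz]; exact h1
  by_cases hqx : q = x
  · rw [hqx] at h2
    rw [cyc_rot hxy hxz hyz]; exact h2
  by_cases hpq : p = q
  · rw [← hpq] at h2 hyq hzq
    -- `x y p` and `z y p`
    have h3 : cyc z y p ∈ H := by
      have h4 := cyc_symm_mem h2
      rwa [cyc_rot hzq.symm hyq.symm hyz.symm] at h4
    have h5 := (two_common hxy hxp hxz hyp hyz hpz h1 h3).2
    have h6 := cyc_symm_mem h5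
    rw [cyc_rot hxy hxz hyz]
    exact h6
  · have h3 : cyc p y x ∈ H := cyc_symm_mem h1
    have h4 := conj_mem h3 h2
    rw [cyc_snd hxp.symm hxy.symm, cyc_of_ne (Ne.symm hpz) hyz.symm hxz.symm,
      cyc_of_ne (Ne.symm hpq) hyq.symm hqx] at h4
    exact (two_common hxz (Ne.symm hqx) hxy hzq hyz.symm hyq.symm h4 h2).2

/-! ### the relation generated by the cycles in `H` -/

/-- `x` and `y` are equal or lie on a common cycle of length three in `H` -/
def Rel (H : Subgroup (Perm Ω)) (x y : Ω) : Prop :=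
  x = y ∨ ∃ z, x ≠ y ∧ x ≠ z ∧ y ≠ z ∧ cyc x y z ∈ H

theorem Rel.refl (x : Ω) : Rel H x x := Or.inl rfl

theorem Rel.symm {x y : Ω} (h : Rel H x y) : Rel H y x := by
  rcases h with h | ⟨z, hxy, hxz, hyz, h⟩
  · exact Or.inl h.symm
  · refine Or.inr ⟨z, hxy.symm, hyz, hxz, ?_⟩
    have h1 := cyc_symm_mem h
    rwa [cyc_rot hyz.symm hxz.symm hxy.symm] at h1

theorem Rel.cyc_mem {x y z : Ω} (h1 : Rel H x y) (h2 : Rel H y z) (hxy : x ≠ y) (hyz : y ≠ z)
    (hxz : x ≠ z) : cyc x y z ∈ H := by
  rcases h1 with h | ⟨p, -, hxp, hyp, h1⟩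
  · exact absurd h hxy
  rcases h2 with h | ⟨q, -, hyq, hzq, h2⟩
  · exact absurd h hyz
  exact cyc_mem_of hxy hxp hyp hyz hyq hzq hxz h1 h2

theorem Rel.trans {x y z : Ω} (h1 : Rel H x y) (h2 : Rel H y z) : Rel H x z := by
  by_cases hxy : x = y
  · rw [hxy]; exact h2
  by_cases hyz : y = z
  · rw [← hyz]; exact h1
  by_cases hxz : x = z
  · exact Or.inl hxz
  have h3 : cyc x y z ∈ H := h1.cyc_mem h2 hxy hyz hxz
  refine Or.inr ⟨y, hxz, hxy, Ne.symm hyz, ?_⟩
  have h4 := cyc_symm_mem h3
  rw [cyc_rot (Ne.symm hyz) (Ne.symm hxz) (Ne.symm hxy), cyc_rot (Ne.symm hxy) hyz hxz] at h4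
  exact h4

theorem Rel.map {g : Perm Ω} (hg : g ∈ H) {x y : Ω} (h : Rel H x y) : Rel H (g x) (g y) := by
  rcases h with h | ⟨z, hxy, hxz, hyz, h⟩
  · exact Or.inl (by rw [h])
  · exact Or.inr ⟨g z, g.injective.ne hxy, g.injective.ne hxz, g.injective.ne hyz, conj_mem hg h⟩

/-- the commutator of two permutations whose supports meet in one point -/
theorem commutator_eq {g h : Perm Ω} {δ : Ω} (hg : g δ ≠ δ) (hh : h δ ≠ δ)
    (hgh : ∀ x, x ≠ δ → g x = x ∨ h x = x) :
    g * h * g⁻¹ * h⁻¹ = cyc δ (g δ) (h δ) := by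
  have key : ∀ w v u, h v = w → g u = v → (g * h * g⁻¹ * h⁻¹) w = g (h u) := by
    intro w v u h1 h2
    have e1 : h⁻¹ w = v := by rw [← h1]; exact h.symm_apply_apply v
    have e2 : g⁻¹ v = u := by rw [← h2]; exact g.symm_apply_apply u
    rw [Perm.mul_apply, Perm.mul_apply, Perm.mul_apply, e1, e2]
  have hgg : h (g δ) = g δ := by
    rcases hgh (g δ) hg with h1 | h1
    · exact absurd (g.injective h1) hg
    · exact h1
  have hhh : g (h δ) = h δ := by
    rcases hgh (h δ) hh with h1 | h1
    · exact h1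
    · exact absurd (h.injective h1) hh
  have hne : g δ ≠ h δ := by
    intro h1
    rw [h1] at hgg
    exact hh (h.injective hgg)
  ext1 w
  by_cases w1 : w = δ
  · obtain ⟨b, hb⟩ := h.surjective δ
    have hbδ : b ≠ δ := by
      intro h1; rw [h1] at hb; exact hh hb
    have hgb : g b = b := by
      rcases hgh b hbδ with h1 | h1
      · exact h1
      · rw [h1] at hb; exact absurd hb hbδ
    rw [w1, key δ b b hb hgb, hb, cyc_fst hg.symm hh.symm]
  by_cases w2 : w = g δ
  · rw [w2, key (g δ) (g δ) δ hgg rfl, hhh, cyc_snd hh.symm hne]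
  by_cases w3 : w = h δ
  · obtain ⟨a, ha⟩ := g.surjective δ
    have haδ : a ≠ δ := by
      intro h1; rw [h1] at ha; exact hg ha
    have hha : h a = a := by
      rcases hgh a haδ with h1 | h1
      · rw [h1] at ha; exact absurd ha haδ
      · exact h1
    rw [w3, key (h δ) δ a rfl ha, hha, ha, cyc_trd]
  rw [cyc_of_ne w1 w2 w3]
  by_cases hw : h w = w
  · by_cases gw : g w = w
    · rw [key w w w hw gw, hw, gw]
    · obtain ⟨u, hu⟩ := g.surjective w
      have huδ : u ≠ δ := by
        intro h1; rw [h1] at hu; exact w2 hu.symm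
      have hhu : h u = u := by
        rcases hgh u huδ with h1 | h1
        · rw [h1] at hu; rw [← hu, h1] at gw; exact absurd rfl gw
        · exact h1
      rw [key w w u hw hu, hhu, hu]
  · obtain ⟨v, hv⟩ := h.surjective w
    have hvδ : v ≠ δ := by
      intro h1; rw [h1] at hv; exact w3 hv.symm
    have gw : g w = w := by
      rcases hgh w w1 with h1 | h1
      · exact h1
      · exact absurd h1 hw
    have gv : g v = v := by
      rcases hgh v hvδ with h1 | h1
      · exact h1
      · rw [h1] at hv; rw [← hv, h1] at hw; exact absurd rfl hw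
    rw [key w v v hv gv, hv, gw]

/-! ### the large class -/

/-- if the index of `H` is less than `2 ^ k` then all but `6 k` points are pairwise related -/
theorem exists_large (H : Subgroup (Perm Ω)) {k : ℕ} (hH : H.index < 2 ^ k) :
    ∃ O : Finset Ω, Fintype.card Ω ≤ O.card + 6 * k ∧ ∀ x ∈ O, ∀ y ∈ O, Rel H x y := by
  obtain ⟨X1, -, ht1, hX1⟩ := exists_max_triv H ∅
  obtain ⟨X2, hd, ht2, hX2⟩ := exists_max_triv H X1
  have hc1 := ht1.card_lt hH
  have hc2 := ht2.card_lt hH
  -- every point outside `X1 ∪ X2` is related to a point of `X1`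
  have hu : ∀ δ, δ ∉ X1 → δ ∉ X2 → ∃ a ∈ X1, Rel H δ a := by
    intro δ h1 h2
    obtain ⟨g, hg, hgx, hgδ⟩ := hX1 δ h1 (Finset.notMem_empty _)
    obtain ⟨h, hh, hhx, hhδ⟩ := hX2 δ h2 h1
    have hgh : ∀ x, x ≠ δ → g x = x ∨ h x = x := by
      intro x hx
      by_cases hx1 : x ∈ X1
      · right
        exact hhx x (fun hx2 => (Finset.disjoint_left.1 hd) hx2 hx1) hx
      · left
        exact hgx x hx1 hx
    have hgX : g δ ∈ X1 := by
      by_contra hn
      exact hgδ (g.injective (hgx _ hn hgδ))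
    have hhg : h (g δ) = g δ := by
      rcases hgh (g δ) hgδ with h1 | h1
      · exact absurd (g.injective h1) hgδ
      · exact h1
    refine ⟨g δ, hgX, Or.inr ⟨h δ, hgδ.symm, hhδ.symm, ?_, ?_⟩⟩
    · intro h1
      rw [h1] at hhg
      exact hhδ (h.injective hhg)
    · rw [← commutator_eq hgδ hhδ hgh]
      exact H.mul_mem (H.mul_mem (H.mul_mem hg hh) (H.inv_mem hg)) (H.inv_mem hh)
  set Z : Finset Ω := Finset.univ \ (X1 ∪ X2) with hZ
  have hZmem : ∀ x, x ∈ Z ↔ x ∉ X1 ∧ x ∉ X2 := by
    intro x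
    rw [hZ, Finset.mem_sdiff, Finset.mem_union, not_or]
    simp
  have hZcard : Fintype.card Ω ≤ Z.card + 4 * k := by
    have h1 := Finset.card_sdiff_add_card (Finset.univ : Finset Ω) (X1 ∪ X2)
    have h2 := Finset.card_union_le X1 X2
    have h3 : Fintype.card Ω ≤ (Finset.univ ∪ (X1 ∪ X2)).card := by
      rw [← Finset.card_univ]
      exact Finset.card_le_card Finset.subset_union_left
    rw [← hZ] at h1
    omega
  -- a greedy choice of disjoint unrelated pairs
  have key : ∀ m ≤ k, (∃ O : Finset Ω, Fintype.card Ω ≤ O.card + 6 * k ∧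
      ∀ x ∈ O, ∀ y ∈ O, Rel H x y) ∨ ∃ e : Fin m × Bool ↪ Ω, (∀ p, e p ∈ Z) ∧
        ∀ j, ¬ Rel H (e (j, false)) (e (j, true)) := by
    intro m
    induction m with
    | zero =>
      intro _
      right
      refine ⟨⟨fun p => p.1.elim0, fun p => p.1.elim0⟩, fun p => p.1.elim0, fun j => j.elim0⟩
    | succ m ih =>
      intro hm
      rcases ih (by omega) with h | ⟨e, heZ, hne⟩
      · exact Or.inl h
      set O : Finset Ω := Z \ (Finset.univ.map e) with hO
      by_cases hrel : ∀ x ∈ O, ∀ y ∈ O, Rel H x y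
      · left
        refine ⟨O, ?_, hrel⟩
        have h1 := Finset.card_sdiff_add_card Z (Finset.univ.map e)
        have h2 : (Finset.univ.map e).card = 2 * m := by
          rw [Finset.card_map, Finset.card_univ, Fintype.card_prod, Fintype.card_fin,
            Fintype.card_bool, mul_comm]
        have h3 : Z.card ≤ (Z ∪ Finset.univ.map e).card :=
          Finset.card_le_card Finset.subset_union_left
        rw [← hO] at h1
        omega
      · right
        push Not at hrel
        obtain ⟨x, hx, y, hy, hxy⟩ := hrel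
        have hxy' : x ≠ y := fun h => hxy (Or.inl h)
        rw [hO, Finset.mem_sdiff] at hx hy
        have hxe : ∀ p, e p ≠ x := fun p hp => hx.2 (Finset.mem_map.2 ⟨p, Finset.mem_univ _, hp⟩)
        have hye : ∀ p, e p ≠ y := fun p hp => hy.2 (Finset.mem_map.2 ⟨p, Finset.mem_univ _, hp⟩)
        refine ⟨⟨fun p => Fin.lastCases (motive := fun _ => Ω) (if p.2 then y else x)
          (fun j => e (j, p.2)) p.1, ?_⟩, ?_, ?_⟩
        · rintro ⟨i, b⟩ ⟨j, c⟩ hij
          revert hij
          refine Fin.lastCases ?_ (fun i => ?_) i <;> refine Fin.lastCases ?_ (fun j => ?_) j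
          · intro hij
            simp only [Fin.lastCases_last] at hij
            cases b <;> cases c <;> simp_all
          · intro hij
            simp only [Fin.lastCases_last, Fin.lastCases_castSucc] at hij
            cases b
            · exact absurd hij.symm (by simpa using hxe (j, c))
            · exact absurd hij.symm (by simpa using hye (j, c))
          · intro hij
            simp only [Fin.lastCases_last, Fin.lastCases_castSucc] at hij
            cases c
            · exact absurd hij (by simpa using hxe (i, b))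
            · exact absurd hij (by simpa using hye (i, b))
          · intro hij
            simp only [Fin.lastCases_castSucc] at hij
            have h1 := e.injective hij
            rw [Prod.mk.injEq] at h1
            rw [h1.1, h1.2]
        · rintro ⟨i, b⟩
          refine Fin.lastCases ?_ (fun i => ?_) i
          · simp only [Function.Embedding.coeFn_mk, Fin.lastCases_last]
            cases b
            · simpa using hx.1
            · simpa using hy.1
          · simp only [Function.Embedding.coeFn_mk, Fin.lastCases_castSucc]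
            exact heZ _
        · intro j
          refine Fin.lastCases ?_ (fun j => ?_) j
          · simpa using hxy
          · simpa using hne j
  rcases key k le_rfl with h | ⟨e, heZ, hne⟩
  · exact h
  exfalso
  obtain ⟨f, hf, hmem⟩ := exists_flip_mem H hH e
  have hj : ∃ j, f j = true := by
    by_contra hcon
    push Not at hcon
    exact hf (funext fun j => by simpa using hcon j)
  obtain ⟨j, hj⟩ := hj
  have h1 := (hZmem _).1 (heZ (j, false))
  obtain ⟨a, ha, hrel⟩ := hu _ h1.1 h1.2
  have h2 := hrel.map hmem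
  rw [viaEmbedding_apply, flip_apply, hj, viaEmbedding_apply_of_notMem] at h2
  · exact hne j (hrel.trans h2.symm)
  · rintro ⟨p, hp⟩
    have h3 := ((hZmem _).1 (heZ p)).1
    rw [hp] at h3
    exact h3 ha

end Pool.Agent.Helper94.SN
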